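import Pool.Agent.Q298.Mim.Diag

/-!
Approximation of the sine kernel by kernels of finite rank.
-/

set_option autoImplicit false

namespace Q298.Mim

open Finset MeasureTheory ComplexConjugate Matrix Filter Topology

/-- Grid points of the interval `[-1/2, 1/2]`. -/
noncomputable def tt (m i : ℕ) : ℝ := -(1 / 2) + (i : ℝ) / m

theorem tt_mem (m i : ℕ) (hi : i ≤ m) (hm : 1 ≤ m) : tt m i ∈ Set.Icc (-(1 / 2) : ℝ) (1 / 2) := by
  have h1 : (0 : ℝ) < m := by exact_mod_cast hm
  have h2 : (i : ℝ) / m ≤ 1 := by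
    rw [div_le_one h1]
    exact_mod_cast hi
  have h3 : (0 : ℝ) ≤ (i : ℝ) / m := by positivity
  unfold tt
  constructor <;> linarith

theorem riemann (h : ℝ → ℂ) (hc : Continuous h) :
    Tendsto (fun m : ℕ => (∑ i ∈ range m, h (tt m i)) / m) atTop
      (𝓝 (∫ t in (-(1 / 2) : ℝ)..(1 / 2), h t)) := by
  rw [Metric.tendsto_atTop]
  intro ε hε
  have huc : UniformContinuousOn h (Set.Icc (-(1 / 2) : ℝ) (1 / 2)) :=
    isCompact_Icc.uniformContinuousOn_of_continuous hc.continuousOn
  rw [Metric.uniformContinuousOn_iff] at huc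
  obtain ⟨δ, hδ, huc⟩ := huc (ε / 2) (by linarith)
  obtain ⟨N, hN⟩ := exists_nat_gt (1 / δ)
  refine ⟨N + 1, fun m hm => ?_⟩
  have hm1 : 1 ≤ m := by omega
  have hm0 : (0 : ℝ) < m := by exact_mod_cast hm1
  have hmδ : 1 / (m : ℝ) < δ := by
    rw [div_lt_iff₀ hm0]
    have h1 : (N : ℝ) < m := by exact_mod_cast hm
    have h2 : 1 / δ < m := hN.trans h1
    rw [div_lt_iff₀ hδ] at h2
    linarith
  have hint : ∀ k < m, IntervalIntegrable h volume (tt m k) (tt m (k + 1)) :=
    fun k _ => hc.intervalIntegrable _ _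
  have h0 : tt m 0 = -(1 / 2) := by
    unfold tt
    simp
  have h1 : tt m m = 1 / 2 := by
    unfold tt
    rw [div_self hm0.ne']
    norm_num
  have hsum := intervalIntegral.sum_integral_adjacent_intervals (μ := volume) hint
  rw [h0, h1] at hsum
  have hstep : ∀ k, tt m (k + 1) - tt m k = 1 / m := by
    intro k
    unfold tt
    push_cast
    ring
  have hcell : ∀ k ∈ range m, ‖h (tt m k) / m - ∫ t in (tt m k)..(tt m (k + 1)), h t‖ ≤
      (ε / 2) * (1 / m) := by
    intro k hk
    rw [mem_range] at hk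
    have e1 : h (tt m k) / m = ∫ _ in (tt m k)..(tt m (k + 1)), h (tt m k) := by
      rw [intervalIntegral.integral_const, hstep, Complex.real_smul]
      push_cast
      ring
    have e2 : h (tt m k) / m - ∫ t in (tt m k)..(tt m (k + 1)), h t =
        ∫ t in (tt m k)..(tt m (k + 1)), (h (tt m k) - h t) := by
      rw [intervalIntegral.integral_sub (intervalIntegrable_const) (hint k hk), ← e1]
    rw [e2]
    have e3 := intervalIntegral.norm_integral_le_of_norm_le_const (a := tt m k)
      (b := tt m (k + 1)) (C := ε / 2) (f := fun t => h (tt m k) - h t) (by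
        intro t ht
        have hle : tt m k ≤ tt m (k + 1) := by
          have := hstep k
          have : 0 < 1 / (m : ℝ) := by positivity
          linarith [hstep k]
        rw [Set.uIoc_of_le hle] at ht
        have hk1 := tt_mem m k hk.le hm1
        have hk2 := tt_mem m (k + 1) hk hm1
        have htm : t ∈ Set.Icc (-(1 / 2) : ℝ) (1 / 2) :=
          ⟨hk1.1.trans ht.1.le, ht.2.trans hk2.2⟩
        have hd : dist (tt m k) t < δ := by
          rw [Real.dist_eq, abs_sub_comm, abs_of_pos (by linarith [ht.1])]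
          have := hstep k
          linarith [ht.2]
        have := huc _ hk1 _ htm hd
        rw [← dist_eq_norm]
        exact this.le)
    rw [hstep, abs_of_pos (by positivity)] at e3
    exact e3
  rw [dist_eq_norm, ← hsum, sum_div, ← sum_sub_distrib]
  calc ‖∑ k ∈ range m, (h (tt m k) / m - ∫ t in (tt m k)..(tt m (k + 1)), h t)‖
      ≤ ∑ k ∈ range m, (ε / 2) * (1 / m) := norm_sum_le_of_le _ hcell
    _ = ε / 2 := by
        rw [sum_const, card_range, nsmul_eq_mul]
        field_simp
    _ < ε := by linarith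

/-- The exponentials with the frequencies of the grid. -/
noncomputable def ph (m : ℕ) (i : Fin m) (x : ℝ) : ℂ :=
  Complex.exp (2 * Real.pi * (tt m i * x : ℝ) * Complex.I) / (Real.sqrt m : ℝ)

theorem norm_exp_aux (y : ℝ) : ‖Complex.exp (2 * Real.pi * (y : ℝ) * Complex.I)‖ = 1 := by
  have : (2 * Real.pi * (y : ℝ) * Complex.I : ℂ) = ((2 * Real.pi * y : ℝ) : ℂ) * Complex.I := by
    push_cast
    ring
  rw [this, Complex.norm_exp_ofReal_mul_I]

/-- The discretized sine kernel. -/
noncomputable def Sm (m : ℕ) (x y : ℝ) : ℂ := ∑ i : Fin m, ph m i x * conj (ph m i y)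

theorem Sm_eq (m : ℕ) (hm : 1 ≤ m) (x y : ℝ) : Sm m x y =
    (∑ i ∈ range m, Complex.exp (2 * Real.pi * (tt m i * (x - y) : ℝ) * Complex.I)) / m := by
  have hm0 : (0 : ℝ) < m := by exact_mod_cast hm
  unfold Sm
  rw [Finset.sum_range (fun i => Complex.exp (2 * Real.pi * (tt m i * (x - y) : ℝ) * Complex.I)),
    sum_div]
  apply sum_congr rfl
  intro i _
  unfold ph
  rw [map_div₀, Complex.conj_ofReal, ← Complex.exp_conj, div_mul_div_comm, ← Complex.exp_add]
  congr 1
  · congr 1
    simp only [map_mul, Complex.conj_ofReal, Complex.conj_I, map_ofNat]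
    push_cast
    ring
  · norm_cast
    rw [Real.mul_self_sqrt hm0.le]

theorem norm_Sm_le (m : ℕ) (hm : 1 ≤ m) (x y : ℝ) : ‖Sm m x y‖ ≤ 1 := by
  have hm0 : (0 : ℝ) < m := by exact_mod_cast hm
  rw [Sm_eq m hm, norm_div, Complex.norm_natCast, div_le_one hm0]
  calc ‖∑ i ∈ range m, Complex.exp (2 * Real.pi * (tt m i * (x - y) : ℝ) * Complex.I)‖
      ≤ ∑ i ∈ range m, (1 : ℝ) := norm_sum_le_of_le _ (fun i _ => (norm_exp_aux _).le)
    _ = m := by simp

theorem sinc_integral (z : ℝ) :
    ∫ t in (-(1 / 2) : ℝ)..(1 / 2), Complex.exp (2 * Real.pi * (t * z : ℝ) * Complex.I) =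
      (Real.sinc (Real.pi * z) : ℝ) := by
  by_cases hz : z = 0
  · subst hz
    simp
    norm_num
  · have hc : 2 * Real.pi * z ≠ 0 := by
      have := Real.pi_pos.ne'
      positivity
    have h1 : ∀ t : ℝ, Complex.exp (2 * Real.pi * (t * z : ℝ) * Complex.I) =
        (fun u : ℝ => Complex.exp (u * Complex.I)) ((2 * Real.pi * z) * t) := by
      intro t
      simp only
      congr 1
      push_cast
      ring
    simp_rw [h1]
    rw [intervalIntegral.integral_comp_mul_left (fun u : ℝ => Complex.exp (u * Complex.I)) hc]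
    have h2 : (2 * Real.pi * z) * (1 / 2) = Real.pi * z := by ring
    have h3 : (2 * Real.pi * z) * (-(1 / 2)) = -(Real.pi * z) := by ring
    rw [h2, h3, integral_exp_mul_I_eq_sinc, Complex.real_smul]
    push_cast
    have h5 : (z : ℂ) ≠ 0 := by exact_mod_cast hz
    have h6 : (Real.pi : ℂ) ≠ 0 := by exact_mod_cast Real.pi_pos.ne'
    field_simp

theorem tendsto_Sm (x y : ℝ) :
    Tendsto (fun m => Sm m x y) atTop (𝓝 ((Real.sinc (Real.pi * (x - y)) : ℝ) : ℂ)) := by
  have h1 := riemann (fun t => Complex.exp (2 * Real.pi * (t * (x - y) : ℝ) * Complex.I))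
    (by fun_prop)
  rw [sinc_integral] at h1
  refine h1.congr' ?_
  filter_upwards [eventually_ge_atTop 1] with m hm
  rw [Sm_eq m hm]

/-- The integrals of the product test functions against the correlation functions of the sine
process. -/
noncomputable def Fn (w : ℝ → ℝ) (n : ℕ) : ℝ :=
  ∫ x : Fin n → ℝ, (∏ k, w (x k)) *
    (Matrix.of fun a b : Fin n => Real.sinc (Real.pi * (x a - x b))).det

theorem norm_det_le (n : ℕ) (M : Matrix (Fin n) (Fin n) ℂ) (h : ∀ a b, ‖M a b‖ ≤ 1) :
    ‖M.det‖ ≤ n.factorial := by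
  have := Matrix.det_le (A := M) (abv := NormedField.toAbsoluteValue ℂ) (x := 1)
    (fun i j => h i j)
  rw [Fintype.card_fin, one_pow, nsmul_eq_mul, mul_one] at this
  exact this

theorem continuous_ph (m : ℕ) (i : Fin m) : Continuous (ph m i) := by
  unfold ph
  fun_prop

theorem continuous_Sm {X : Type*} [TopologicalSpace X] (m : ℕ) (f g : X → ℝ)
    (hf : Continuous f) (hg : Continuous g) : Continuous fun p : X => Sm m (f p) (g p) := by
  unfold Sm
  apply continuous_finsetSum
  intro i _
  exact ((continuous_ph m i).comp hf).mul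
    (Complex.continuous_conj.comp ((continuous_ph m i).comp hg))

theorem continuous_detSm (m n : ℕ) : Continuous fun x : Fin n → ℝ =>
      (Matrix.of fun a b : Fin n => Sm m (x a) (x b)).det := by
  have h1 : ∀ a b : Fin n, Continuous fun x : Fin n → ℝ => Sm m (x a) (x b) :=
    fun a b => continuous_Sm m _ _ (continuous_apply a) (continuous_apply b)
  apply Continuous.matrix_det
  exact continuous_pi fun a => continuous_pi fun b => h1 a b

theorem tendsto_Fn (w : ℝ → ℝ) (hw : Integrable w) (n : ℕ) :
    Tendsto (fun m => ∫ x : Fin n → ℝ, (∏ k, (w (x k) : ℂ)) *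
      (Matrix.of fun a b : Fin n => Sm m (x a) (x b)).det) atTop (𝓝 ((Fn w n : ℝ) : ℂ)) := by
  have hFn : ((Fn w n : ℝ) : ℂ) = ∫ x : Fin n → ℝ, (∏ k, (w (x k) : ℂ)) *
      (Matrix.of fun a b : Fin n => ((Real.sinc (Real.pi * (x a - x b)) : ℝ) : ℂ)).det := by
    unfold Fn
    rw [← integral_complex_ofReal]
    congr 1
    ext x
    push_cast
    congr 1
    have := (Complex.ofRealHom : ℝ →+* ℂ).map_det
      (Matrix.of fun a b : Fin n => Real.sinc (Real.pi * (x a - x b)))
    rw [Complex.ofRealHom_eq_coe] at this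
    rw [this]
    congr 1
  rw [hFn]
  have hwC : Integrable (fun y : ℝ => (w y : ℂ)) := hw.ofReal
  have hP : Integrable (fun x : Fin n → ℝ => ∏ k, (w (x k) : ℂ)) :=
    Integrable.fintype_prod (f := fun _ y => (w y : ℂ)) (fun _ => hwC)
  apply tendsto_integral_filter_of_dominated_convergence
    (fun x : Fin n → ℝ => ‖∏ k, (w (x k) : ℂ)‖ * n.factorial)
  · exact Eventually.of_forall fun m => hP.aestronglyMeasurable.mul
      (continuous_detSm m n).aestronglyMeasurable
  · filter_upwards [eventually_ge_atTop 1] with m hm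
    apply ae_of_all
    intro x
    rw [norm_mul]
    apply mul_le_mul_of_nonneg_left _ (norm_nonneg _)
    apply norm_det_le
    intro a b
    exact norm_Sm_le m hm _ _
  · exact hP.norm.mul_const _
  · apply ae_of_all
    intro x
    apply Tendsto.mul tendsto_const_nhds
    have hdet : Continuous fun M : Matrix (Fin n) (Fin n) ℂ => M.det :=
      Continuous.matrix_det continuous_id
    refine (hdet.tendsto _).comp ?_
    refine tendsto_pi_nhds.mpr fun a => ?_
    refine tendsto_pi_nhds.mpr fun b => ?_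
    exact tendsto_Sm _ _

/-- The function with the given frequencies in `[-1/2, 1/2]`. -/
noncomputable def ff (g : ℝ → ℂ) (x : ℝ) : ℂ :=
  ∫ t in (-(1 / 2) : ℝ)..(1 / 2), g t * Complex.exp (2 * Real.pi * (t * x : ℝ) * Complex.I)

theorem exists_approx (w : ℝ → ℝ) (hw0 : ∀ x, 0 ≤ w x) (hw : Integrable w) :
    ∃ l : (m : ℕ) → Fin m → ℝ, (∀ m i, 0 ≤ l m i) ∧
      (∀ m, 1 ≤ m → ∑ i, l m i = ∫ x, w x) ∧
      (∀ n, Tendsto (fun m => es n (l m)) atTop (𝓝 (Fn w n))) ∧
      (∀ (g : ℝ → ℂ) (L : ℝ), Continuous g →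
        L * ∫ t in (-(1 / 2) : ℝ)..(1 / 2), ‖g t‖ ^ 2 < ∫ x, w x * ‖ff g x‖ ^ 2 →
        ∀ᶠ m in atTop, ∃ k, L < l m k) := by
  classical
  have hwC : Integrable (fun y : ℝ => (w y : ℂ)) := hw.ofReal
  have hbd : ∀ m (i : Fin m) x, ‖ph m i x‖ ≤ 1 := by
    intro m i x
    unfold ph
    rw [norm_div, norm_exp_aux]
    have hm0 : 0 < m := lt_of_le_of_lt (Nat.zero_le _) i.2
    have hm1 : (1 : ℝ) ≤ Real.sqrt m := by
      rw [Real.one_le_sqrt]
      exact_mod_cast hm0
    rw [Complex.norm_real, Real.norm_of_nonneg (Real.sqrt_nonneg _)]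
    rw [div_le_one (by linarith)]
    exact hm1
  have hint : ∀ m (i j : Fin m), Integrable (fun x => (w x : ℂ) * (ph m i x * conj (ph m j x))) := by
    intro m i j
    refine hwC.mul_bdd (c := 1) ?_ ?_
    · exact ((continuous_ph m i).mul
        (Complex.continuous_conj.comp (continuous_ph m j))).aestronglyMeasurable
    · apply ae_of_all
      intro x
      rw [norm_mul, RCLike.norm_conj]
      exact mul_le_one₀ (hbd m i x) (norm_nonneg _) (hbd m j x)
  choose ψ l hl0 hψint horth hker hray using fun m => exists_diag m (ph m) w hw0 (hint m)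
  have hes : ∀ n m, ((es n (l m) : ℝ) : ℂ) = ∫ x : Fin n → ℝ, (∏ k, (w (x k) : ℂ)) *
      (Matrix.of fun a b : Fin n => Sm m (x a) (x b)).det := by
    intro n m
    rw [← integral_det n w (ψ m) (l m) (hψint m) (horth m)]
    congr 1
    ext x
    congr 3
    ext a b
    exact hker m _ _
  refine ⟨l, hl0, ?_, ?_, ?_⟩
  · intro m hm
    have h1 : (((∑ i, l m i : ℝ)) : ℂ) = ((∫ x, w x : ℝ) : ℂ) := by
      rw [Complex.ofReal_sum, ← integral_complex_ofReal]
      have h2 : ∀ i, (l m i : ℂ) = ∫ x, (w x : ℂ) * (ψ m i x * conj (ψ m i x)) := by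
        intro i
        rw [horth, if_pos rfl]
      simp_rw [h2]
      rw [← integral_finsetSum _ (fun i _ => hψint m i i)]
      congr 1
      ext x
      rw [← mul_sum, hker]
      have h3 : ∑ k, ph m k x * conj (ph m k x) = Sm m x x := rfl
      rw [h3, Sm_eq m hm, sub_self]
      have hm0 : (m : ℂ) ≠ 0 := by exact_mod_cast (by omega : m ≠ 0)
      simp [hm0]
    exact_mod_cast h1
  · intro n
    have h1 := tendsto_Fn w hw n
    simp_rw [← hes] at h1
    have h2 := (Complex.continuous_re.tendsto _).comp h1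
    simpa [Function.comp_def] using h2
  · intro g L hg hL
    have hgI : Tendsto (fun m : ℕ => (∑ i ∈ range m, ‖g (tt m i)‖ ^ 2) / (m : ℝ)) atTop
        (𝓝 (∫ t in (-(1 / 2) : ℝ)..(1 / 2), ‖g t‖ ^ 2)) := by
      have h1 := riemann (fun t => ((‖g t‖ ^ 2 : ℝ) : ℂ)) (by fun_prop)
      rw [intervalIntegral.integral_ofReal] at h1
      have h2 := (Complex.continuous_re.tendsto _).comp h1
      refine (Tendsto.congr ?_ h2)
      intro m
      simp only [Function.comp]
      rw [← Complex.ofReal_sum, ← Complex.ofReal_natCast, ← Complex.ofReal_div,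
        Complex.ofReal_re]
    set c : (m : ℕ) → Fin m → ℂ := fun m i => g (tt m i) / (Real.sqrt m : ℝ) with hc
    have hcn : ∀ m : ℕ, 1 ≤ m → ∑ i, ‖c m i‖ ^ 2 = (∑ i ∈ range m, ‖g (tt m i)‖ ^ 2) / (m : ℝ) := by
      intro m hm
      rw [Finset.sum_range, sum_div]
      apply sum_congr rfl
      intro i _
      rw [hc]
      simp only
      rw [norm_div, Complex.norm_real, Real.norm_of_nonneg (Real.sqrt_nonneg _), div_pow,
        Real.sq_sqrt (by positivity)]
    have hcf : ∀ m : ℕ, 1 ≤ m → ∀ x, ∑ j, c m j * ph m j x =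
        (∑ i ∈ range m, g (tt m i) * Complex.exp (2 * Real.pi * (tt m i * x : ℝ) * Complex.I)) /
          (m : ℂ) := by
      intro m hm x
      rw [Finset.sum_range (fun i => g (tt m i) *
        Complex.exp (2 * Real.pi * (tt m i * x : ℝ) * Complex.I)), sum_div]
      apply sum_congr rfl
      intro i _
      rw [hc]
      unfold ph
      simp only
      rw [div_mul_div_comm]
      congr 1
      norm_cast
      rw [Real.mul_self_sqrt (by positivity)]
    obtain ⟨C, hC⟩ := (isCompact_Icc (a := -(1 / 2 : ℝ)) (b := 1 / 2)).exists_bound_of_continuousOn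
      hg.continuousOn
    have hC0 : 0 ≤ C := (norm_nonneg _).trans (hC 0 (by constructor <;> norm_num))
    have hlim : Tendsto (fun m : ℕ => ∫ x, w x * ‖∑ j, c m j * ph m j x‖ ^ 2) atTop
        (𝓝 (∫ x, w x * ‖ff g x‖ ^ 2)) := by
      apply tendsto_integral_filter_of_dominated_convergence (fun x => w x * C ^ 2)
      · refine Eventually.of_forall fun m => hw.aestronglyMeasurable.mul ?_
        apply Continuous.aestronglyMeasurable
        apply Continuous.pow
        apply Continuous.norm
        exact continuous_finsetSum _ fun j _ => continuous_const.mul (continuous_ph m j)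
      · filter_upwards [eventually_ge_atTop 1] with m hm
        apply ae_of_all
        intro x
        rw [norm_mul, Real.norm_of_nonneg (hw0 x)]
        apply mul_le_mul_of_nonneg_left _ (hw0 x)
        rw [norm_pow, norm_norm]
        apply pow_le_pow_left₀ (norm_nonneg _)
        rw [hcf m hm, norm_div, Complex.norm_natCast, div_le_iff₀ (by exact_mod_cast hm)]
        calc ‖∑ i ∈ range m, g (tt m i) *
              Complex.exp (2 * Real.pi * (tt m i * x : ℝ) * Complex.I)‖
            ≤ ∑ i ∈ range m, C := by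
              apply norm_sum_le_of_le
              intro i hi
              rw [norm_mul, norm_exp_aux, mul_one]
              exact hC _ (tt_mem m i (mem_range.mp hi).le hm)
          _ = C * m := by
              rw [sum_const, card_range, nsmul_eq_mul]
              ring
      · exact hw.mul_const _
      · apply ae_of_all
        intro x
        apply Tendsto.const_mul
        apply Tendsto.pow
        apply Tendsto.norm
        have h1 := riemann (fun t => g t *
          Complex.exp (2 * Real.pi * (t * x : ℝ) * Complex.I)) (by fun_prop)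
        refine h1.congr' ?_
        filter_upwards [eventually_ge_atTop 1] with m hm
        rw [hcf m hm]
    have hev := (hgI.const_mul L).eventually_lt hlim hL
    filter_upwards [hev, eventually_ge_atTop 1] with m hm hm1
    apply hray m (c m) L
    rw [hcn m hm1]
    exact hm

end Q298.Mim
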