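import Pool.Agent.Q298.Mim.Proc
import Pool.Agent.Q298.Mim.Approx

/-!
No point process on the lattice has the factorial moments of the sine process for a weight with a
large eigenvalue.
-/

set_option autoImplicit false

namespace Q298.Mim

open Finset MeasureTheory Filter Topology
open scoped ENNReal

theorem Fn_zero (w : ℝ → ℝ) : Fn w 0 = 1 := by
  unfold Fn
  simp only [univ_eq_empty, prod_empty, Matrix.det_isEmpty, mul_one]
  rw [integral_const, smul_eq_mul, mul_one, Measure.real, volume_pi, Measure.pi_of_empty]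
  simp

theorem Fn_le (w : ℝ → ℝ) (hw0 : ∀ x, 0 ≤ w x) (hw : Integrable w) (n : ℕ) :
    Fn w n ≤ (∫ x, w x) ^ n := by
  obtain ⟨l, hl0, hl1, hl2, _⟩ := exists_approx w hw0 hw
  apply le_of_tendsto (hl2 n)
  filter_upwards [eventually_ge_atTop 1] with m hm
  rw [← hl1 m hm]
  exact es_le n (l m) (hl0 m)

theorem core {Ω : Type*} [MeasurableSpace Ω] (P : Measure Ω) [IsProbabilityMeasure P]
    (W : ℕ → Ω → ℝ) (hWm : ∀ j, Measurable (W j)) (hW0 : ∀ j ω, 0 ≤ W j ω)
    (hW1 : ∀ᵐ ω ∂P, ∀ j, W j ω ≤ 1)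
    (hmom : ∀ n : ℕ, 1 ≤ n → ∫⁻ ω, (∑' j, ENNReal.ofReal (W j ω)) ^ n ∂P ≠ ∞)
    (w : ℝ → ℝ) (hw0 : ∀ x, 0 ≤ w x) (hw : Integrable w)
    (hF : ∀ n, 1 ≤ n → ∫ ω, ∑' f : Fin n ↪ ℕ, ∏ i, W (f i) ω ∂P = Fn w n)
    (g : ℝ → ℂ) (hg : Continuous g)
    (hgw : ∫ t in (-(1 / 2) : ℝ)..(1 / 2), ‖g t‖ ^ 2 < ∫ x, w x * ‖ff g x‖ ^ 2) : False := by
  classical
  obtain ⟨l, hl0, hl1, hl2, hl3⟩ := exists_approx w hw0 hw
  set I : ℝ := ∫ t in (-(1 / 2) : ℝ)..(1 / 2), ‖g t‖ ^ 2 with hI
  set J : ℝ := ∫ x, w x * ‖ff g x‖ ^ 2 with hJ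
  have hI0 : 0 ≤ I := intervalIntegral.integral_nonneg (by norm_num) fun t _ => sq_nonneg _
  set L : ℝ := 1 + (J - I) / (2 * (I + 1)) with hL
  have hL1 : 1 < L := by
    have : 0 < (J - I) / (2 * (I + 1)) := div_pos (by linarith) (by linarith)
    linarith
  have hLJ : L * I < J := by
    rw [hL]
    have h1 : (J - I) / (2 * (I + 1)) * I ≤ (J - I) / 2 := by
      rw [div_mul_eq_mul_div, div_le_div_iff₀ (by linarith) (by norm_num)]
      nlinarith
    nlinarith
  have hev := hl3 g L hg hLJ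
  set s0 : ℝ := 1 / L with hs0
  have hs0p : 0 < s0 := by positivity
  have hs01 : s0 < 1 := by
    rw [hs0, div_lt_one (by linarith)]
    exact hL1
  set A : ℝ := ∫ x, w x with hA
  have hA0 : 0 ≤ A := integral_nonneg hw0
  have hFle : ∀ n, Fn w n ≤ A ^ n := Fn_le w hw0 hw
  have hFn0 : ∀ n, 0 ≤ Fn w n := fun n => ge_of_tendsto (hl2 n)
    (Eventually.of_forall fun m => es_nonneg n (l m) (hl0 m))
  obtain ⟨δ, hδ, hgen⟩ := generating P W hWm hW0 hW1 hmom (Fn w) hF (Fn_zero w) A hFle s0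
    hs0p.le hs01
  -- convergence of the coefficients
  have hes : ∀ m, 1 ≤ m → ∀ n, es n (l m) ≤ A ^ n := by
    intro m hm n
    rw [← hl1 m hm]
    exact es_le n (l m) (hl0 m)
  have hdiff : Tendsto (fun m => ∑' n : ℕ, |Fn w n - es n (l m)| / n.factorial) atTop (𝓝 0) := by
    have h0 : (0 : ℝ) = ∑' n : ℕ, (0 : ℝ) := by simp
    rw [h0]
    apply tendsto_tsum_of_dominated_convergence (bound := fun n : ℕ => A ^ n / n.factorial)
      (Real.summable_pow_div_factorial A)
    · intro n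
      have h1 : Tendsto (fun m => |Fn w n - es n (l m)|) atTop (𝓝 |Fn w n - Fn w n|) :=
        (tendsto_const_nhds.sub (hl2 n)).abs
      rw [sub_self, abs_zero] at h1
      have h2 := h1.div_const (n.factorial : ℝ)
      rw [zero_div] at h2
      exact h2
    · filter_upwards [eventually_ge_atTop 1] with m hm n
      rw [Real.norm_of_nonneg (by positivity)]
      have h3 : (0 : ℝ) < n.factorial := by positivity
      rw [div_le_div_iff_of_pos_right h3, abs_le]
      constructor
      · linarith [hes m hm n, hFn0 n]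
      · linarith [hFle n, es_nonneg n (l m) (hl0 m)]
  have hev2 := hdiff.eventually_lt_const hδ
  obtain ⟨m, ⟨k, hk⟩, hm2, hm1⟩ := (hev.and (hev2.and (eventually_ge_atTop 1))).exists
  set s : ℝ := 1 / l m k with hs
  have hlk : 0 < l m k := by linarith
  have hsp : 0 < s := by positivity
  have hss : s ≤ s0 := by
    rw [hs, hs0]
    exact one_div_le_one_div_of_le (by linarith) hk.le
  have hzero : ∑' n : ℕ, (-s) ^ n / n.factorial * es n (l m) = 0 := by
    rw [tsum_eq_sum (s := range (m + 1))]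
    · rw [← prod_one_add_eq (-s) (l m) (m + 1) (by simp)]
      apply prod_eq_zero (mem_univ k)
      rw [hs]
      field_simp
      ring
    · intro n hn
      rw [mem_range, not_lt] at hn
      rw [es_zero_of_lt n (l m) (by rw [Fintype.card_fin]; omega), mul_zero]
  have hsum : ∀ u : ℕ → ℝ, (∀ n, |u n| ≤ A ^ n) →
      Summable fun n : ℕ => (-s) ^ n / n.factorial * u n := by
    intro u hu
    refine Summable.of_norm_bounded (Real.summable_pow_div_factorial A) ?_
    intro n
    rw [norm_mul, norm_div, norm_pow, norm_neg, Real.norm_of_nonneg hsp.le, RCLike.norm_natCast,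
      Real.norm_eq_abs]
    have h1 : s ^ n ≤ 1 := pow_le_one₀ hsp.le (by linarith)
    have h3 : (0 : ℝ) < n.factorial := by positivity
    rw [div_mul_eq_mul_div, div_le_div_iff_of_pos_right h3]
    calc s ^ n * |u n| ≤ 1 * A ^ n := mul_le_mul h1 (hu n) (abs_nonneg _) (by norm_num)
      _ = A ^ n := one_mul _
  have hS1 := hsum (Fn w) (fun n => by rw [abs_of_nonneg (hFn0 n)]; exact hFle n)
  have hS2 := hsum (fun n => es n (l m)) (fun n => by
    rw [abs_of_nonneg (es_nonneg n (l m) (hl0 m))]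
    exact hes m hm1 n)
  have h1 := hgen s hsp.le hss
  have h2 : ∑' n : ℕ, (-s) ^ n / n.factorial * Fn w n =
      ∑' n : ℕ, (-s) ^ n / n.factorial * (Fn w n - es n (l m)) := by
    simp_rw [mul_sub]
    rw [hS1.tsum_sub hS2, hzero, sub_zero]
  have hS3 : Summable fun n : ℕ => |Fn w n - es n (l m)| / n.factorial := by
    refine Summable.of_nonneg_of_le (fun n => by positivity) ?_
      (Real.summable_pow_div_factorial A)
    intro n
    have h3 : (0 : ℝ) < n.factorial := by positivity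
    rw [div_le_div_iff_of_pos_right h3, abs_le]
    constructor
    · linarith [hes m hm1 n, hFn0 n]
    · linarith [hFle n, es_nonneg n (l m) (hl0 m)]
  have h3 : ∑' n : ℕ, (-s) ^ n / n.factorial * (Fn w n - es n (l m)) ≤
      ∑' n : ℕ, |Fn w n - es n (l m)| / n.factorial := by
    have hS4 : Summable fun n : ℕ => (-s) ^ n / n.factorial * (Fn w n - es n (l m)) := by
      simp_rw [mul_sub]
      exact hS1.sub hS2
    apply hS4.tsum_le_tsum _ hS3
    intro n
    refine (le_abs_self _).trans ?_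
    rw [abs_mul, abs_div, abs_pow, abs_neg, abs_of_pos hsp, Nat.abs_cast]
    have h4 : s ^ n ≤ 1 := pow_le_one₀ hsp.le (by linarith)
    have h5 : (0 : ℝ) < n.factorial := by positivity
    rw [div_mul_eq_mul_div, div_le_div_iff_of_pos_right h5]
    calc s ^ n * |Fn w n - es n (l m)| ≤ 1 * |Fn w n - es n (l m)| :=
          mul_le_mul_of_nonneg_right h4 (abs_nonneg _)
      _ = _ := one_mul _
  linarith

end Q298.Mim
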