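import Pool.Agent.Q298.Mim.Band
import Pool.Agent.Q298.Mim.Approx

/-!
Product test functions in several variables.
-/

set_option autoImplicit false

namespace Q298.Mim

open MeasureTheory Filter Topology ComplexConjugate Real
open scoped FourierTransform SchwartzMap ContDiff

theorem exists_test (n : ℕ) (B : ℝ) (W : ℝ → ℂ) (hW : ContDiff ℝ ∞ W)
    (hWB : ∀ t, B < |t| → W t = 0) :
    ∃ η : 𝓢(EuclideanSpace ℝ (Fin n), ℂ), (∀ ξ, (𝓕 η) ξ ≠ 0 → ∀ i, |ξ i| ≤ B) ∧
      ∀ x, η x = ∏ i, 𝓕⁻ W (x i) := by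
  classical
  set H : EuclideanSpace ℝ (Fin n) → ℂ := fun ξ => ∏ i, W (ξ i) with hH
  have hsm : ContDiff ℝ ∞ H := by
    apply contDiff_prod
    intro i _
    exact hW.comp (EuclideanSpace.proj i : EuclideanSpace ℝ (Fin n) →L[ℝ] ℝ).contDiff
  have hz : ∀ ξ : EuclideanSpace ℝ (Fin n), H ξ ≠ 0 → ∀ i, |ξ i| ≤ B := by
    intro ξ h i
    by_contra hcon
    rw [not_le] at hcon
    exact h (Finset.prod_eq_zero (Finset.mem_univ i) (hWB _ hcon))
  have hcs : HasCompactSupport H := by
    apply HasCompactSupport.intro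
      (isCompact_closedBall (0 : EuclideanSpace ℝ (Fin n)) (Real.sqrt (n * B ^ 2)))
    intro ξ hξ
    by_contra hne
    apply hξ
    have h1 := hz ξ hne
    rw [Metric.mem_closedBall, dist_zero_right, EuclideanSpace.norm_eq]
    apply Real.sqrt_le_sqrt
    calc ∑ i, ‖ξ i‖ ^ 2 ≤ ∑ _i : Fin n, B ^ 2 := by
          apply Finset.sum_le_sum
          intro i _
          rw [Real.norm_eq_abs]
          exact pow_le_pow_left₀ (abs_nonneg _) (h1 i) 2
      _ = n * B ^ 2 := by simp
  set HS : 𝓢(EuclideanSpace ℝ (Fin n), ℂ) := hcs.toSchwartzMap hsm with hHS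
  refine ⟨𝓕⁻ HS, ?_, ?_⟩
  · intro ξ h
    rw [FourierTransform.fourier_fourierInv_eq HS] at h
    exact hz ξ h
  · intro x
    rw [SchwartzMap.fourierInv_coe, Real.fourierInv_eq']
    have h1 := (PiLp.volume_preserving_toLp (ι := Fin n)).integral_comp
      (MeasurableEquiv.toLp 2 (Fin n → ℝ)).measurableEmbedding
      (fun v : EuclideanSpace ℝ (Fin n) =>
        Complex.exp ((↑(2 * π * inner ℝ v x) : ℂ) * Complex.I) • HS v)
    rw [← h1]
    have h2 : ∀ v : Fin n → ℝ, Complex.exp ((↑(2 * π * inner ℝ (WithLp.toLp 2 v) x) : ℂ) *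
        Complex.I) • HS (WithLp.toLp 2 v) = ∏ i, (ee (v i * x i) * W (v i)) := by
      intro v
      rw [Finset.prod_mul_distrib, smul_eq_mul]
      congr 1
      have h3 : ∏ i, ee (v i * x i) = Complex.exp (∑ i, ((2 * Real.pi * (v i * x i) : ℝ) : ℂ) *
          Complex.I) := by
        rw [Complex.exp_sum]
        apply Finset.prod_congr rfl
        intro i _
        rw [ee_eq]
      rw [h3]
      congr 1
      rw [← Finset.sum_mul]
      congr 1
      rw [PiLp.inner_apply]
      push_cast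
      rw [Finset.mul_sum]
      apply Finset.sum_congr rfl
      intro i _
      simp
      ring
    simp_rw [h2]
    rw [integral_fintype_prod_volume_eq_prod (fun i t => ee (t * x i) * W t)]
    apply Finset.prod_congr rfl
    intro i _
    rw [fourierInv_ee]

/-- The sine side of the mimicry identity for product functions. -/
theorem sine_side (n : ℕ) (w : ℝ → ℝ) (η : EuclideanSpace ℝ (Fin n) → ℂ)
    (hη : ∀ x, η x = ∏ i, (w (x i) : ℂ)) :
    ∫ x : EuclideanSpace ℝ (Fin n), η x *
      ((Matrix.of fun i j : Fin n => Real.sinc (Real.pi * (x i - x j))).det : ℝ) =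
      (Fn w n : ℝ) := by
  have h1 := (PiLp.volume_preserving_toLp (ι := Fin n)).integral_comp
      (MeasurableEquiv.toLp 2 (Fin n → ℝ)).measurableEmbedding
      (fun x : EuclideanSpace ℝ (Fin n) => η x *
      ((Matrix.of fun i j : Fin n => Real.sinc (Real.pi * (x i - x j))).det : ℝ))
  rw [← h1]
  unfold Fn
  rw [← integral_complex_ofReal]
  congr 1
  ext x
  rw [hη]
  push_cast
  rfl

end Q298.Mim
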