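import Pool.Agent.Q298.Mim.Neg
import Pool.Agent.Q298.Mim.Core
import Pool.Agent.Q298.Mim.Test

/-!
No point process on the lattice mimics the sine process beyond the bandwidth `(1 - a) / a`.
-/

set_option autoImplicit false

namespace Q298.Mim

open MeasureTheory Filter Topology ComplexConjugate
open scoped FourierTransform SchwartzMap ContDiff ENNReal

theorem choose_Nd (a B : ℝ) (ha : 1 / 2 < a) (hB : 0 < B) (haB : (1 - a) / a < B) :
    ∃ N d : ℕ, 1 ≤ d ∧ 2 * d ≤ N ∧ (d : ℝ) < B * a * N ∧ (N : ℝ) * (1 - a) < d := by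
  have ha0 : 0 < a := by linarith
  have h1 : max 0 (1 - a) < min (B * a) (1 / 2) := by
    rw [div_lt_iff₀ ha0] at haB
    rw [max_lt_iff, lt_min_iff, lt_min_iff]
    exact ⟨⟨by positivity, by norm_num⟩, haB, by linarith⟩
  obtain ⟨q, hq1, hq2⟩ := exists_rat_btwn h1
  rw [max_lt_iff] at hq1
  rw [lt_min_iff] at hq2
  have hq0 : 0 < q := by exact_mod_cast hq1.1
  have hnum : 0 < q.num := Rat.num_pos.mpr hq0
  have hden : (0 : ℝ) < q.den := by exact_mod_cast q.den_pos
  have hcast : (q : ℝ) = (q.num.toNat : ℝ) / q.den := by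
    rw [Rat.cast_def]
    congr 1
    have : (q.num.toNat : ℤ) = q.num := Int.toNat_of_nonneg hnum.le
    exact_mod_cast this.symm
  rw [hcast] at hq1 hq2
  refine ⟨q.den, q.num.toNat, ?_, ?_, ?_, ?_⟩
  · omega
  · have h2 := hq2.2
    rw [div_lt_iff₀ hden] at h2
    have h3 : (2 * q.num.toNat : ℝ) < q.den := by linarith
    exact_mod_cast h3.le
  · have h2 := hq2.1
    rw [div_lt_iff₀ hden] at h2
    exact h2
  · have h2 := hq1.2
    rw [lt_div_iff₀ hden] at h2
    linarith

theorem HH_zero (r : ℝ) (hr : 0 < r) : HH r hr 0 = 1 := by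
  have h := HH_sub_one r hr 0
  rw [abs_zero, mul_zero] at h
  have h1 := norm_le_zero_iff.mp h
  exact sub_eq_zero.mp h1

/-- The square of the transform of the bump. -/
noncomputable def hh (r : ℝ) (hr : 0 < r) (x : ℝ) : ℝ := ‖HH r hr x‖ ^ 2

theorem hh_cast (r : ℝ) (hr : 0 < r) (x : ℝ) : ((hh r hr x : ℝ) : ℂ) = HH r hr x ^ 2 := by
  unfold hh
  rw [← Complex.normSq_eq_norm_sq, ← Complex.mul_conj, HH_conj, sq]

theorem hh_nonneg (r : ℝ) (hr : 0 < r) (x : ℝ) : 0 ≤ hh r hr x := sq_nonneg _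

theorem hh_le_one (r : ℝ) (hr : 0 < r) (x : ℝ) : hh r hr x ≤ 1 :=
  pow_le_one₀ (norm_nonneg _) (HH_norm r hr x)

theorem hh_le (r : ℝ) (hr : 0 < r) (x : ℝ) : hh r hr x ≤ ‖HH r hr x‖ := by
  unfold hh
  rw [sq]
  exact mul_le_of_le_one_left (norm_nonneg _) (HH_norm r hr x)

theorem continuous_hh (r : ℝ) (hr : 0 < r) : Continuous (hh r hr) :=
  ((HH r hr).continuous.norm).pow 2

theorem hh_integrable (r : ℝ) (hr : 0 < r) : Integrable (hh r hr) := by
  refine (HH r hr).integrable.norm.mono' (continuous_hh r hr).aestronglyMeasurable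
    (ae_of_all _ fun x => ?_)
  rw [Real.norm_of_nonneg (hh_nonneg r hr x)]
  exact hh_le r hr x

theorem hh_pos (r : ℝ) (hr : 0 < r) : 0 < ∫ x, hh r hr x := by
  rw [integral_pos_iff_support_of_nonneg (hh_nonneg r hr) (hh_integrable r hr)]
  apply IsOpen.measure_pos
  · exact (continuous_hh r hr).isOpen_support
  · refine ⟨0, ?_⟩
    rw [Function.mem_support]
    unfold hh
    rw [HH_zero]
    simp

theorem hh_decay (r : ℝ) (hr : 0 < r) : ∃ C : ℝ, 0 ≤ C ∧ ∀ x, hh r hr x ≤ C / (1 + x ^ 2) := by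
  obtain ⟨C0, hC0, h0⟩ := (HH r hr).decay 0 0
  obtain ⟨C2, hC2, h2⟩ := (HH r hr).decay 2 0
  refine ⟨C0 + C2, by linarith, fun x => ?_⟩
  refine (hh_le r hr x).trans ?_
  rw [le_div_iff₀ (by positivity)]
  have e0 := h0 x
  have e2 := h2 x
  rw [norm_iteratedFDeriv_zero] at e0 e2
  rw [pow_zero, one_mul] at e0
  rw [Real.norm_eq_abs, sq_abs] at e2
  nlinarith

/-- The weight. -/
noncomputable def wt (T : ℝ) (N d : ℕ) (r : ℝ) (hr : 0 < r) (x : ℝ) : ℝ :=
  (1 - vv T N d x) * hh r hr x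

theorem wt_nonneg (T : ℝ) (N d : ℕ) (r : ℝ) (hr : 0 < r) (x : ℝ) : 0 ≤ wt T N d r hr x := by
  have := (abs_le.mp (abs_vv_le T N d x)).2
  exact mul_nonneg (by linarith) (hh_nonneg r hr x)

theorem wt_le (T : ℝ) (N d : ℕ) (r : ℝ) (hr : 0 < r) (x : ℝ) :
    wt T N d r hr x ≤ 2 * hh r hr x := by
  have := (abs_le.mp (abs_vv_le T N d x)).1
  exact mul_le_mul_of_nonneg_right (by linarith) (hh_nonneg r hr x)

theorem continuous_wt (T : ℝ) (N d : ℕ) (r : ℝ) (hr : 0 < r) : Continuous (wt T N d r hr) :=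
  (continuous_const.sub (continuous_vv T N d)).mul (continuous_hh r hr)

theorem wt_integrable (T : ℝ) (N d : ℕ) (r : ℝ) (hr : 0 < r) : Integrable (wt T N d r hr) := by
  refine ((hh_integrable r hr).const_mul 2).mono' (continuous_wt T N d r hr).aestronglyMeasurable
    (ae_of_all _ fun x => ?_)
  rw [Real.norm_of_nonneg (wt_nonneg T N d r hr x)]
  exact wt_le T N d r hr x

theorem chi_shift (r : ℝ) (hr : 0 < r) (τ x : ℝ) :
    ∫ t, chi r hr (t - τ) * ee (t * x) = ee (τ * x) * HH r hr x := by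
  rw [← integral_add_right_eq_self _ τ, HH_eq, ← integral_const_mul]
  congr 1
  ext t
  rw [add_sub_cancel_right, add_mul, ee_add]
  ring

theorem exists_weight (a B : ℝ) (ha : 1 / 2 < a) (hB : 0 < B) (haB : (1 - a) / a < B) :
    ∃ (N d : ℕ) (r : ℝ) (hr : 0 < r) (g : ℝ → ℂ), 1 ≤ N ∧ d * (1 / (N * a)) + 2 * r ≤ B ∧
      Continuous g ∧ ∫ t in (-(1 / 2) : ℝ)..(1 / 2), ‖g t‖ ^ 2 <
        ∫ x, wt (N * a) N d r hr x * ‖ff g x‖ ^ 2 := by
  classical
  obtain ⟨N, d, hd, h2d, h3, h4⟩ := choose_Nd a B ha hB haB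
  have ha0 : 0 < a := by linarith
  have hN : 1 ≤ N := by omega
  have hN0 : (0 : ℝ) < N := by exact_mod_cast hN
  set T : ℝ := N * a with hT
  have hT0 : 0 < T := by positivity
  have hdN : (d : ℝ) ≤ N := by exact_mod_cast (by omega : d ≤ N)
  have hwidth : ((N : ℝ) - d) / (2 * T) < 1 / 2 := by
    rw [div_lt_div_iff₀ (by positivity) (by norm_num)]
    rw [hT]
    nlinarith
  set δ : ℝ := min (1 / (2 * T)) (1 / 2 - ((N : ℝ) - d) / (2 * T)) with hδ
  have hδ0 : 0 < δ := lt_min (by positivity) (by linarith)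
  have hδ1 : δ ≤ 1 / (2 * T) := min_le_left _ _
  have hδ2 : δ ≤ 1 / 2 - ((N : ℝ) - d) / (2 * T) := min_le_right _ _
  have horth : ∀ k : ℤ, k ≠ 0 → ∫ x, ee (k / T * x) * (hh δ hδ0 x : ℂ) = 0 := by
    intro k hk
    simp_rw [hh_cast]
    apply HH_orth
    rw [abs_div, abs_of_pos hT0, le_div_iff₀ hT0]
    have h5 : (1 : ℝ) ≤ |(k : ℝ)| := by
      rw [← Int.cast_abs]
      exact_mod_cast Int.one_le_abs hk
    have h6 : 2 * δ * T ≤ 1 := by
      have := mul_le_mul_of_nonneg_right hδ1 hT0.le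
      have h7 : 1 / (2 * T) * T = 1 / 2 := by field_simp
      linarith
    linarith
  obtain ⟨c, hc⟩ := exists_neg T N d hd h2d (hh δ hδ0) (hh_integrable δ hδ0) (hh_pos δ hδ0) horth
  set τ : ℕ → ℝ := fun j => j / T - ((N : ℝ) - d) / (2 * T) with hτ
  set g : ℝ → ℂ := fun t => ∑ j ∈ Finset.range (N - d + 1), c j * chi δ hδ0 (t - τ j) with hg
  have hgsm : ContDiff ℝ ∞ g := by
    apply ContDiff.sum
    intro i _
    exact contDiff_const.mul ((chi_smooth δ hδ0).comp (contDiff_id.sub contDiff_const))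
  have hτb : ∀ j ∈ Finset.range (N - d + 1), |τ j| ≤ ((N : ℝ) - d) / (2 * T) := by
    intro j hj
    rw [Finset.mem_range] at hj
    have h5 : (j : ℝ) ≤ N - d := by
      have h6 : j + d ≤ N := by omega
      have h7 : (j : ℝ) + d ≤ N := by exact_mod_cast h6
      linarith
    rw [abs_le, hτ]
    simp only
    constructor
    · have : 0 ≤ (j : ℝ) / T := by positivity
      linarith
    · have h8 : (j : ℝ) / T ≤ ((N : ℝ) - d) / T := div_le_div_of_nonneg_right h5 hT0.le
      have h9 : ((N : ℝ) - d) / T = 2 * (((N : ℝ) - d) / (2 * T)) := by field_simp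
      linarith
  have hgz : ∀ t, 1 / 2 ≤ |t| → g t = 0 := by
    intro t ht
    apply Finset.sum_eq_zero
    intro j hj
    rw [chi_support δ hδ0, mul_zero]
    have h5 := hτb j hj
    have h6 := abs_sub_abs_le_abs_sub t (τ j)
    linarith
  have hgcs : HasCompactSupport g := by
    apply HasCompactSupport.intro (isCompact_Icc (a := -(1 / 2 : ℝ)) (b := 1 / 2))
    intro t ht
    apply hgz
    by_contra hcon
    rw [not_le] at hcon
    exact ht ⟨(abs_lt.mp hcon).1.le, (abs_lt.mp hcon).2.le⟩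
  set gS : 𝓢(ℝ, ℂ) := hgcs.toSchwartzMap hgsm with hgS
  have hgS' : ∀ t, gS t = g t := fun t => rfl
  -- interval integrals are integrals over the line
  have hline : ∀ (E : Type) [NormedAddCommGroup E] [NormedSpace ℝ E] (F : ℝ → E),
      (∀ t, 1 / 2 ≤ |t| → F t = 0) →
      ∫ t in (-(1 / 2) : ℝ)..(1 / 2), F t = ∫ t, F t := by
    intro E _ _ F hF
    rw [intervalIntegral.integral_of_le (by norm_num)]
    apply setIntegral_eq_integral_of_forall_compl_eq_zero
    intro t ht
    apply hF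
    by_contra hcon
    rw [not_le] at hcon
    exact ht ⟨(abs_lt.mp hcon).1, (abs_lt.mp hcon).2.le⟩
  have hff : ∀ x, ff g x = 𝓕⁻ g x := by
    intro x
    unfold ff
    rw [hline ℂ _ (fun t ht => by rw [hgz t ht, zero_mul]), fourierInv_ee]
    congr 1
    ext t
    rw [mul_comm]
    rfl
  have hff2 : ∀ x, ff g x = ee (-(((N : ℝ) - d) / (2 * T)) * x) *
      (∑ j ∈ Finset.range (N - d + 1), c j * ee (j / T * x)) * HH δ hδ0 x := by
    intro x
    unfold ff
    rw [hline ℂ _ (fun t ht => by rw [hgz t ht, zero_mul])]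
    have h5 : ∀ t, g t * Complex.exp (2 * Real.pi * (t * x : ℝ) * Complex.I) =
        ∑ j ∈ Finset.range (N - d + 1), c j * (chi δ hδ0 (t - τ j) * ee (t * x)) := by
      intro t
      rw [hg]
      simp only
      rw [Finset.sum_mul]
      apply Finset.sum_congr rfl
      intro j _
      unfold ee
      ring
    simp_rw [h5]
    have hI : ∀ j, Integrable (fun t => chi δ hδ0 (t - τ j) * ee (t * x)) := by
      intro j
      refine ((chi_integrable δ hδ0).comp_sub_right (τ j)).mul_bdd (c := 1) ?_ ?_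
      · exact (continuous_ee.comp (continuous_mul_const x)).aestronglyMeasurable
      · exact ae_of_all _ fun t => (norm_ee _).le
    rw [integral_finsetSum _ fun j _ => (hI j).const_mul _]
    rw [Finset.mul_sum, Finset.sum_mul]
    apply Finset.sum_congr rfl
    intro j _
    rw [integral_const_mul, chi_shift]
    have h6 : τ j * x = -(((N : ℝ) - d) / (2 * T)) * x + j / T * x := by
      rw [hτ]
      ring
    rw [h6, ee_add]
    ring
  have hffn : ∀ x, ‖ff g x‖ ^ 2 = ‖∑ j ∈ Finset.range (N - d + 1), c j * ee (j / T * x)‖ ^ 2 *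
      hh δ hδ0 x := by
    intro x
    rw [hff2, norm_mul, norm_mul, norm_ee, one_mul, mul_pow]
    rfl
  have hplanch : ∫ t in (-(1 / 2) : ℝ)..(1 / 2), ‖g t‖ ^ 2 = ∫ x, ‖ff g x‖ ^ 2 := by
    rw [hline ℝ _ (fun t ht => by rw [hgz t ht]; simp)]
    have h5 := SchwartzMap.integral_norm_sq_fourier (𝓕⁻ gS)
    rw [FourierTransform.fourier_fourierInv_eq gS] at h5
    simp_rw [hff]
    rw [SchwartzMap.fourierInv_coe] at h5
    exact h5
  have hffI : Integrable (fun x => ‖ff g x‖ ^ 2) := by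
    have h5 : MemLp (𝓕⁻ gS : 𝓢(ℝ, ℂ)) 2 volume := (𝓕⁻ gS).memLp 2 volume
    have h6 := h5.integrable_norm_pow (by norm_num)
    refine h6.congr (ae_of_all _ fun x => ?_)
    simp only
    rw [hff, SchwartzMap.fourierInv_coe]
    rfl
  have hffc : Continuous (fun x => ‖ff g x‖ ^ 2) := by
    have h5 : (fun x => ‖ff g x‖ ^ 2) = fun x => ‖(𝓕⁻ gS) x‖ ^ 2 := by
      ext x
      rw [hff, SchwartzMap.fourierInv_coe]
      rfl
    rw [h5]
    exact ((𝓕⁻ gS).continuous.norm).pow 2
  -- the limit r -> 0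
  have hε : 0 < (B - d * (1 / T)) / 2 := by
    have : (d : ℝ) * (1 / T) < B := by
      rw [mul_one_div, div_lt_iff₀ hT0, hT]
      linarith
    linarith
  set ε : ℝ := (B - d * (1 / T)) / 2 with hεd
  have hr : ∀ k : ℕ, 0 < ε / (k + 1) := fun k => by positivity
  have hlim : Tendsto (fun k : ℕ => ∫ x, wt T N d (ε / (k + 1)) (hr k) x * ‖ff g x‖ ^ 2) atTop
      (𝓝 (∫ x, (1 - vv T N d x) * ‖ff g x‖ ^ 2)) := by
    apply tendsto_integral_of_dominated_convergence (fun x => 2 * ‖ff g x‖ ^ 2)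
    · intro k
      exact ((continuous_wt T N d _ (hr k)).mul hffc).aestronglyMeasurable
    · exact hffI.const_mul 2
    · intro k
      apply ae_of_all
      intro x
      rw [norm_mul, Real.norm_of_nonneg (wt_nonneg T N d _ (hr k) x),
        Real.norm_of_nonneg (sq_nonneg _)]
      apply mul_le_mul_of_nonneg_right _ (sq_nonneg _)
      refine (wt_le T N d _ (hr k) x).trans ?_
      have := hh_le_one _ (hr k) x
      linarith
    · apply ae_of_all
      intro x
      apply Tendsto.mul_const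
      unfold wt
      have h5 : Tendsto (fun k : ℕ => hh (ε / (k + 1)) (hr k) x) atTop (𝓝 1) := by
        unfold hh
        have h6 : Tendsto (fun k : ℕ => HH (ε / (k + 1)) (hr k) x) atTop (𝓝 1) := by
          rw [tendsto_iff_norm_sub_tendsto_zero]
          have h7 : Tendsto (fun k : ℕ => 2 * Real.pi * (ε / (k + 1)) * |x|) atTop (𝓝 0) := by
            have h8 : Tendsto (fun k : ℕ => ε * (1 / ((k : ℝ) + 1))) atTop (𝓝 (ε * 0)) :=
              tendsto_one_div_add_atTop_nhds_zero_nat.const_mul ε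
            have h9 := (h8.const_mul (2 * Real.pi)).mul_const |x|
            simp only [mul_zero, zero_mul] at h9
            refine h9.congr fun k => ?_
            ring
          exact squeeze_zero (fun k => norm_nonneg _) (fun k => HH_sub_one _ (hr k) x) h7
        have h10 := (h6.norm).pow 2
        simpa using h10
      have h11 := h5.const_mul (1 - vv T N d x)
      rwa [mul_one] at h11
  have hvI : Integrable (fun x => vv T N d x * ‖ff g x‖ ^ 2) := by
    refine hffI.bdd_mul (c := 1) (continuous_vv T N d).aestronglyMeasurable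
      (ae_of_all _ fun x => ?_)
    rw [Real.norm_eq_abs]
    exact abs_vv_le T N d x
  have hbig : ∫ x, ‖ff g x‖ ^ 2 < ∫ x, (1 - vv T N d x) * ‖ff g x‖ ^ 2 := by
    have h5 : ∫ x, (1 - vv T N d x) * ‖ff g x‖ ^ 2 =
        (∫ x, ‖ff g x‖ ^ 2) - ∫ x, vv T N d x * ‖ff g x‖ ^ 2 := by
      rw [← integral_sub hffI hvI]
      congr 1
      ext x
      ring
    have h6 : ∫ x, vv T N d x * ‖ff g x‖ ^ 2 < 0 := by
      refine lt_of_eq_of_lt ?_ hc
      congr 1
      ext x
      rw [hffn]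
      ring
    rw [h5]
    linarith
  obtain ⟨k, hk⟩ := (hlim.eventually_const_lt hbig).exists
  refine ⟨N, d, ε / (k + 1), hr k, g, hN, ?_, hgsm.continuous, ?_⟩
  · have h5 : ε / ((k : ℝ) + 1) ≤ ε := by
      apply div_le_self hε.le
      have : (0 : ℝ) ≤ k := by positivity
      linarith
    have h6 : d * (1 / T) + 2 * ε = B := by
      rw [hεd]
      ring
    linarith
  · rw [hplanch]
    exact hk

end Q298.Mim
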