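import Pool.Agent.Q298.Mim.Fin

/-!
No point process on the lattice mimics the sine process beyond the bandwidth `(1 - a) / a`.
-/

set_option autoImplicit false

namespace Q298.Mim

open MeasureTheory Filter Topology ComplexConjugate
open scoped FourierTransform SchwartzMap ENNReal

theorem no_mimicry {Ω : Type*} [MeasurableSpace Ω] (P : Measure Ω) [IsProbabilityMeasure P]
    (live : ℕ → Set Ω) (pos : ℕ → Ω → ℝ) (hlive : ∀ j, MeasurableSet (live j))
    (hpos : ∀ j, Measurable (pos j))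
    (hulm : ∀ k : ℕ, 1 ≤ k → ∃ C : ℝ≥0∞, C ≠ ∞ ∧ ∀ x : ℝ,
      ∫⁻ ω, (∑' j, (live j ∩ pos j ⁻¹' Set.Icc x (x + 1)).indicator 1 ω) ^ k ∂P ≤ C)
    (a B : ℝ) (ha : 1 / 2 < a) (hB : 0 < B) (haB : (1 - a) / a < B)
    (hlat : ∀ᵐ ω ∂P, ∀ j, ω ∈ live j → ∃ k : ℤ, pos j ω = a * k)
    (hmim : ∀ n : ℕ, 1 ≤ n → ∀ η : 𝓢(EuclideanSpace ℝ (Fin n), ℂ),
      (∀ ξ, (𝓕 η) ξ ≠ 0 → ∀ i, |ξ i| ≤ B) →
      ∫ ω, ∑' f : Fin n ↪ ℕ, {ω | ∀ i, ω ∈ live (f i)}.indicator
        (fun ω => η (WithLp.toLp 2 fun i => pos (f i) ω)) ω ∂P =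
      ∫ x : EuclideanSpace ℝ (Fin n), η x *
        ((Matrix.of fun i j : Fin n => Real.sinc (Real.pi * (x i - x j))).det : ℝ)) : False := by
  classical
  obtain ⟨N, d, r, hr, g, hN, hfreq, hg, hbig⟩ := exists_weight a B ha hB haB
  have ha0 : 0 < a := by linarith
  have hN0 : (0 : ℝ) < N := by exact_mod_cast hN
  have hT0 : 0 < (N : ℝ) * a := by positivity
  set w : ℝ → ℝ := wt (N * a) N d r hr with hw
  have hwc : Continuous w := continuous_wt _ _ _ _ _
  have hw0 : ∀ x, 0 ≤ w x := wt_nonneg _ _ _ _ _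
  obtain ⟨C, hC, hdec⟩ := hh_decay r hr
  have hwdec : ∀ x, w x ≤ (2 * C) / (1 + x ^ 2) := by
    intro x
    refine (wt_le _ _ _ _ hr x).trans ?_
    have := hdec x
    calc 2 * hh r hr x ≤ 2 * (C / (1 + x ^ 2)) := by linarith
      _ = _ := by ring
  have hWm : ∀ j, Measurable (WW live pos w j) := by
    intro j
    exact (hwc.measurable.comp (hpos j)).indicator (hlive j)
  have hW0 : ∀ j ω, 0 ≤ WW live pos w j ω := by
    intro j ω
    exact Set.indicator_nonneg (fun _ _ => hw0 _) _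
  have hW1 : ∀ᵐ ω ∂P, ∀ j, WW live pos w j ω ≤ 1 := by
    filter_upwards [hlat] with ω hω j
    unfold WW
    by_cases hj : ω ∈ live j
    · rw [Set.indicator_of_mem hj]
      obtain ⟨k, hk⟩ := hω j hj
      rw [hk, hw]
      unfold wt
      have h1 := vv_nonneg a ha0 N d hN k
      have h2 := (abs_le.mp (abs_vv_le (N * a) N d (a * k))).2
      have h3 := hh_nonneg r hr (a * k)
      have h4 := hh_le_one r hr (a * k)
      nlinarith
    · rw [Set.indicator_of_notMem hj]
      norm_num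
  have hmom : ∀ n : ℕ, 1 ≤ n →
      ∫⁻ ω, (∑' j, ENNReal.ofReal (WW live pos w j ω)) ^ n ∂P ≠ ∞ := fun n hn =>
    moment_lt_top P live pos hlive hpos hulm w (2 * C) (by linarith) hwdec n hn
  obtain ⟨Wf, hWs, _, hWz, hWeq⟩ := band (d * (1 / (N * a))) r hr
    (fun x => 1 - (vv (N * a) N d x : ℂ)) (TP_sub_one (by positivity) (TP_vv (N * a) hT0 N d))
  have hF : ∀ n, 1 ≤ n → ∫ ω, ∑' f : Fin n ↪ ℕ, ∏ i, WW live pos w (f i) ω ∂P = Fn w n := by
    intro n hn
    obtain ⟨η, hη1, hη2⟩ := exists_test n B Wf hWs (fun t ht => hWz t (by linarith))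
    have hη3 : ∀ x, η x = ∏ i, (w (x i) : ℂ) := by
      intro x
      rw [hη2]
      apply Finset.prod_congr rfl
      intro i _
      rw [hWeq, ← hh_cast, hw]
      unfold wt
      push_cast
      rfl
    have h1 := hmim n hn η hη1
    rw [sine_side n w η hη3] at h1
    have h2 : ∀ ω, ∑' f : Fin n ↪ ℕ, {ω | ∀ i, ω ∈ live (f i)}.indicator
        (fun ω => η (WithLp.toLp 2 fun i => pos (f i) ω)) ω =
        ((∑' f : Fin n ↪ ℕ, ∏ i, WW live pos w (f i) ω : ℝ) : ℂ) := by
      intro ω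
      rw [Complex.ofReal_tsum]
      congr 1
      ext f
      by_cases h : ∀ i, ω ∈ live (f i)
      · rw [Set.indicator_of_mem (by exact h), hη3]
        push_cast
        apply Finset.prod_congr rfl
        intro i _
        unfold WW
        rw [Set.indicator_of_mem (h i)]
      · rw [Set.indicator_of_notMem (by exact h)]
        push Not at h
        obtain ⟨i, hi⟩ := h
        have h3 : ∏ i, WW live pos w (f i) ω = 0 := by
          apply Finset.prod_eq_zero (Finset.mem_univ i)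
          unfold WW
          rw [Set.indicator_of_notMem hi]
        rw [h3, Complex.ofReal_zero]
    simp_rw [h2] at h1
    rw [integral_complex_ofReal] at h1
    exact_mod_cast h1
  exact core P (WW live pos w) hWm hW0 hW1 hmom w hw0 (wt_integrable _ _ _ _ _) hF g hg hbig

end Q298.Mim
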