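import Mathlib

/-!
Band limited functions: the Fourier transform of a smooth bump, its square, and products with
trigonometric polynomials.
-/

set_option autoImplicit false

namespace Q298.Mim

open MeasureTheory Filter Topology ComplexConjugate Real
open scoped FourierTransform SchwartzMap Convolution ContDiff

/-- `e^{2 π i y}`. -/
noncomputable def ee (y : ℝ) : ℂ := Complex.exp (2 * Real.pi * (y : ℝ) * Complex.I)

theorem ee_eq (y : ℝ) : ee y = Complex.exp (((2 * Real.pi * y : ℝ) : ℂ) * Complex.I) := by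
  unfold ee
  congr 1
  push_cast
  ring

theorem norm_ee (y : ℝ) : ‖ee y‖ = 1 := by
  rw [ee_eq, Complex.norm_exp_ofReal_mul_I]

theorem ee_zero : ee 0 = 1 := by
  rw [ee_eq]
  simp

theorem ee_add (x y : ℝ) : ee (x + y) = ee x * ee y := by
  rw [ee_eq, ee_eq, ee_eq, ← Complex.exp_add]
  congr 1
  push_cast
  ring

theorem ee_int (k : ℤ) : ee k = 1 := by
  rw [ee_eq]
  have : (((2 * Real.pi * (k : ℝ) : ℝ) : ℂ) * Complex.I) = (k : ℂ) * (2 * Real.pi * Complex.I) := by
    push_cast
    ring
  rw [this, Complex.exp_int_mul_two_pi_mul_I]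

theorem conj_ee (y : ℝ) : conj (ee y) = ee (-y) := by
  rw [ee_eq, ee_eq, ← Complex.exp_conj, map_mul, Complex.conj_ofReal, Complex.conj_I]
  congr 1
  push_cast
  ring

theorem continuous_ee : Continuous ee := by
  unfold ee
  fun_prop

theorem ee_ne (y : ℝ) : ee y ≠ 0 := by
  intro h
  have := norm_ee y
  rw [h] at this
  simp at this

theorem fourierInv_ee (f : ℝ → ℂ) (x : ℝ) : 𝓕⁻ f x = ∫ t, ee (t * x) * f t := by
  rw [Real.fourierInv_eq']
  congr 1
  ext t
  rw [smul_eq_mul, ee_eq]
  congr 3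
  simp
  ring

theorem fourier_ee (f : ℝ → ℂ) (x : ℝ) : 𝓕 f x = ∫ t, ee (-(t * x)) * f t := by
  rw [Real.fourier_eq']
  congr 1
  ext t
  rw [smul_eq_mul, ee_eq]
  congr 3
  simp
  ring

/-- The bump function. -/
noncomputable def bmp (r : ℝ) (hr : 0 < r) : ContDiffBump (0 : ℝ) :=
  ⟨r / 2, r, by linarith, by linarith⟩

/-- The normalized bump function with support in `[-r, r]`, with complex values. -/
noncomputable def chi (r : ℝ) (hr : 0 < r) (t : ℝ) : ℂ := ((bmp r hr).normed volume t : ℝ)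

theorem chi_smooth (r : ℝ) (hr : 0 < r) : ContDiff ℝ ∞ (chi r hr) :=
  Complex.ofRealCLM.contDiff.comp (bmp r hr).contDiff_normed

theorem chi_compact (r : ℝ) (hr : 0 < r) : HasCompactSupport (chi r hr) :=
  (bmp r hr).hasCompactSupport_normed.comp_left Complex.ofReal_zero

theorem chi_support (r : ℝ) (hr : 0 < r) (t : ℝ) (ht : r ≤ |t|) : chi r hr t = 0 := by
  unfold chi
  have h1 : t ∉ Function.support ((bmp r hr).normed volume) := by
    rw [ContDiffBump.support_normed_eq, Metric.mem_ball, dist_zero_right, Real.norm_eq_abs]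
    exact not_lt.mpr ht
  rw [Function.notMem_support] at h1
  rw [h1, Complex.ofReal_zero]

theorem chi_even (r : ℝ) (hr : 0 < r) (t : ℝ) : chi r hr (-t) = chi r hr t := by
  unfold chi
  rw [ContDiffBump.normed_neg]

theorem chi_integrable (r : ℝ) (hr : 0 < r) : Integrable (chi r hr) :=
  (bmp r hr).integrable_normed.ofReal

theorem chi_norm (r : ℝ) (hr : 0 < r) : ∫ t, ‖chi r hr t‖ = 1 := by
  have h1 : ∀ t, ‖chi r hr t‖ = (bmp r hr).normed volume t := by
    intro t
    unfold chi
    rw [Complex.norm_real, Real.norm_of_nonneg ((bmp r hr).nonneg_normed t)]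
  simp_rw [h1]
  exact (bmp r hr).integral_normed

/-- The bump as a Schwartz function. -/
noncomputable def chiS (r : ℝ) (hr : 0 < r) : 𝓢(ℝ, ℂ) :=
  (chi_compact r hr).toSchwartzMap (chi_smooth r hr)

theorem chiS_coe (r : ℝ) (hr : 0 < r) : ⇑(chiS r hr) = chi r hr := rfl

/-- The Fourier transform of the bump. -/
noncomputable def HH (r : ℝ) (hr : 0 < r) : 𝓢(ℝ, ℂ) := 𝓕⁻ (chiS r hr)

theorem HH_eq (r : ℝ) (hr : 0 < r) (x : ℝ) : HH r hr x = ∫ t, ee (t * x) * chi r hr t := by
  unfold HH
  rw [SchwartzMap.fourierInv_coe, chiS_coe, fourierInv_ee]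

theorem HH_even (r : ℝ) (hr : 0 < r) (x : ℝ) : HH r hr (-x) = HH r hr x := by
  rw [HH_eq, HH_eq, ← integral_neg_eq_self]
  congr 1
  ext t
  rw [chi_even]
  congr 2
  ring

theorem HH_conj (r : ℝ) (hr : 0 < r) (x : ℝ) : conj (HH r hr x) = HH r hr x := by
  have h1 : conj (HH r hr x) = HH r hr (-x) := by
    rw [HH_eq, HH_eq, ← integral_conj]
    congr 1
    ext t
    rw [map_mul, conj_ee]
    congr 1
    · congr 1
      ring
    · unfold chi
      rw [Complex.conj_ofReal]
  rw [h1, HH_even]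

theorem HH_real (r : ℝ) (hr : 0 < r) (x : ℝ) : HH r hr x = ((HH r hr x).re : ℂ) := by
  rw [Complex.conj_eq_iff_re.mp (HH_conj r hr x)]

theorem HH_norm (r : ℝ) (hr : 0 < r) (x : ℝ) : ‖HH r hr x‖ ≤ 1 := by
  rw [HH_eq, ← chi_norm r hr]
  refine (norm_integral_le_integral_norm _).trans (le_of_eq ?_)
  congr 1
  ext t
  rw [norm_mul, norm_ee, one_mul]

theorem norm_ee_sub_one (y : ℝ) : ‖ee y - 1‖ ≤ 2 * Real.pi * |y| := by
  rw [ee_eq]
  have h := Real.norm_exp_I_mul_ofReal_sub_one_le (x := 2 * Real.pi * y)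
  rw [mul_comm] at h
  refine h.trans (le_of_eq ?_)
  rw [Real.norm_eq_abs, abs_mul, abs_of_pos Real.two_pi_pos]

theorem HH_sub_one (r : ℝ) (hr : 0 < r) (x : ℝ) : ‖HH r hr x - 1‖ ≤ 2 * Real.pi * r * |x| := by
  have h1 : (1 : ℂ) = ∫ t, chi r hr t := by
    unfold chi
    rw [integral_complex_ofReal, (bmp r hr).integral_normed, Complex.ofReal_one]
  have hI : Integrable (fun t => ee (t * x) * chi r hr t) := by
    refine (chi_integrable r hr).bdd_mul (c := 1) ?_ ?_
    · exact (continuous_ee.comp (continuous_mul_const x)).aestronglyMeasurable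
    · exact ae_of_all _ fun t => (norm_ee _).le
  have h2 : HH r hr x - 1 = ∫ t, (ee (t * x) - 1) * chi r hr t := by
    rw [HH_eq]
    nth_rewrite 1 [h1]
    rw [← integral_sub hI (chi_integrable r hr)]
    congr 1
    ext t
    ring
  rw [h2]
  calc ‖∫ t, (ee (t * x) - 1) * chi r hr t‖ ≤ ∫ t, ‖(ee (t * x) - 1) * chi r hr t‖ :=
        norm_integral_le_integral_norm _
    _ ≤ ∫ t, (2 * Real.pi * r * |x|) * ‖chi r hr t‖ := by
        apply integral_mono
        · have := hI.sub (chi_integrable r hr)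
          refine (this.congr (ae_of_all _ fun t => ?_)).norm
          simp only [Pi.sub_apply]
          ring
        · exact (chi_integrable r hr).norm.const_mul _
        · intro t
          simp only
          rw [norm_mul]
          by_cases ht : r ≤ |t|
          · rw [chi_support r hr t ht]
            simp
          · apply mul_le_mul_of_nonneg_right _ (norm_nonneg _)
            refine (norm_ee_sub_one _).trans ?_
            rw [abs_mul]
            rw [not_le] at ht
            have := Real.pi_pos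
            have h3 : |t| * |x| ≤ r * |x| := mul_le_mul_of_nonneg_right ht.le (abs_nonneg _)
            calc 2 * Real.pi * (|t| * |x|) ≤ 2 * Real.pi * (r * |x|) := by gcongr
              _ = _ := by ring
    _ = _ := by rw [integral_const_mul, chi_norm, mul_one]

/-- The convolution square of the bump. -/
noncomputable def KK (r : ℝ) (hr : 0 < r) : ℝ → ℂ :=
  chi r hr ⋆[ContinuousLinearMap.mul ℂ ℂ] chi r hr

theorem KK_compact (r : ℝ) (hr : 0 < r) : HasCompactSupport (KK r hr) :=
  (chi_compact r hr).convolution _ (chi_compact r hr)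

theorem KK_support (r : ℝ) (hr : 0 < r) (t : ℝ) (ht : 2 * r ≤ |t|) : KK r hr t = 0 := by
  by_contra h
  have h1 : t ∈ Function.support (KK r hr) := h
  have h2 := support_convolution_subset_swap (ContinuousLinearMap.mul ℂ ℂ) h1
  rw [Set.mem_add] at h2
  obtain ⟨a, ha, b, hb, rfl⟩ := h2
  have ha' : |a| < r := by
    by_contra hcon
    exact ha (chi_support r hr a (not_lt.mp hcon))
  have hb' : |b| < r := by
    by_contra hcon
    exact hb (chi_support r hr b (not_lt.mp hcon))
  have := abs_add_le a b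
  linarith

theorem KK_smooth (r : ℝ) (hr : 0 < r) : ContDiff ℝ ∞ (KK r hr) := by
  have h : KK r hr = chi r hr ⋆[ContinuousLinearMap.mul ℝ ℂ] chi r hr := rfl
  rw [h]
  exact (chi_compact r hr).contDiff_convolution_right (ContinuousLinearMap.mul ℝ ℂ)
    (chi_integrable r hr).locallyIntegrable (chi_smooth r hr)

theorem KK_fourierInv (r : ℝ) (hr : 0 < r) (x : ℝ) : 𝓕⁻ (KK r hr) x = HH r hr x ^ 2 := by
  rw [Real.fourierInv_eq_fourier_neg]
  unfold KK
  rw [Real.fourier_mul_convolution_eq (chi_integrable r hr) (chi_integrable r hr),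
    ← Real.fourierInv_eq_fourier_neg, HH_eq, fourierInv_ee, sq]

/-- A trigonometric polynomial with frequencies in `[-b, b]`. -/
def TP (b : ℝ) (h : ℝ → ℂ) : Prop :=
  ∃ (ι : Type) (_ : Fintype ι) (c : ι → ℂ) (τ : ι → ℝ), (∀ i, |τ i| ≤ b) ∧
    ∀ x, h x = ∑ i, c i * ee (τ i * x)

theorem TP_mul {b b' : ℝ} {h h' : ℝ → ℂ} (H : TP b h) (H' : TP b' h') :
    TP (b + b') (fun x => h x * h' x) := by
  obtain ⟨ι, _, c, τ, h1, h2⟩ := H
  obtain ⟨ι', _, c', τ', h1', h2'⟩ := H'
  refine ⟨ι × ι', inferInstance, fun p => c p.1 * c' p.2, fun p => τ p.1 + τ' p.2, ?_, ?_⟩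
  · intro p
    exact (abs_add_le _ _).trans (add_le_add (h1 _) (h1' _))
  · intro x
    simp only
    rw [h2, h2', Finset.sum_mul_sum, Fintype.sum_prod_type]
    apply Finset.sum_congr rfl
    intro i _
    apply Finset.sum_congr rfl
    intro j _
    rw [add_mul, ee_add]
    ring

theorem TP_one : TP 0 (fun _ => 1) :=
  ⟨Unit, inferInstance, fun _ => 1, fun _ => 0, by simp, fun x => by simp [ee_zero]⟩

theorem TP_prod {κ : Type} (s : Finset κ) (b : ℝ) (h : κ → ℝ → ℂ) (H : ∀ i ∈ s, TP b (h i)) :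
    TP (s.card * b) (fun x => ∏ i ∈ s, h i x) := by
  classical
  induction s using Finset.induction_on with
  | empty => simpa using TP_one
  | insert a s ha ih =>
    have h1 := TP_mul (H a (Finset.mem_insert_self _ _))
      (ih fun i hi => H i (Finset.mem_insert_of_mem hi))
    rw [Finset.card_insert_of_notMem ha]
    have h2 : ((s.card + 1 : ℕ) : ℝ) * b = b + s.card * b := by
      push_cast
      ring
    rw [h2]
    simp_rw [Finset.prod_insert ha]
    exact h1

theorem TP_sub_one {b : ℝ} {h : ℝ → ℂ} (hb : 0 ≤ b) (H : TP b h) : TP b (fun x => 1 - h x) := by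
  obtain ⟨ι, _, c, τ, h1, h2⟩ := H
  refine ⟨Option ι, inferInstance, fun o => o.elim 1 (fun i => -c i), fun o => o.elim 0 τ, ?_, ?_⟩
  · rintro (_ | i)
    · simpa using hb
    · exact h1 i
  · intro x
    simp only
    rw [h2, Fintype.sum_option]
    simp only [Option.elim_none, Option.elim_some, zero_mul, ee_zero, neg_mul]
    rw [Finset.sum_neg_distrib]
    ring

/-- The product of a trigonometric polynomial and the square of the transform of the bump is band
limited. -/
theorem band (b r : ℝ) (hr : 0 < r) (h : ℝ → ℂ) (H : TP b h) :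
    ∃ W : ℝ → ℂ, ContDiff ℝ ∞ W ∧ HasCompactSupport W ∧ (∀ t, b + 2 * r < |t| → W t = 0) ∧
      ∀ x, 𝓕⁻ W x = h x * HH r hr x ^ 2 := by
  obtain ⟨ι, _, c, τ, h1, h2⟩ := H
  have hsm : ContDiff ℝ ∞ (fun t => ∑ i, c i * KK r hr (t - τ i)) := by
    apply ContDiff.sum
    intro i _
    exact contDiff_const.mul ((KK_smooth r hr).comp (contDiff_id.sub contDiff_const))
  have hz : ∀ t, b + 2 * r < |t| → ∑ i, c i * KK r hr (t - τ i) = 0 := by
    intro t ht
    apply Finset.sum_eq_zero
    intro i _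
    rw [KK_support r hr, mul_zero]
    have h3 := abs_sub_abs_le_abs_sub t (τ i)
    have h4 := h1 i
    linarith
  have hcs : HasCompactSupport (fun t => ∑ i, c i * KK r hr (t - τ i)) := by
    apply HasCompactSupport.intro (isCompact_Icc (a := -(b + 2 * r)) (b := b + 2 * r))
    intro t ht
    apply hz
    by_contra hcon
    rw [not_lt] at hcon
    exact ht (abs_le.mp hcon)
  refine ⟨_, hsm, hcs, hz, ?_⟩
  intro x
  have hKc : Continuous (KK r hr) := (KK_smooth r hr).continuous
  have hKI : Integrable (KK r hr) := hKc.integrable_of_hasCompactSupport (KK_compact r hr)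
  have hI : ∀ i, Integrable (fun t => ee (t * x) * (c i * KK r hr (t - τ i))) := by
    intro i
    have h5 : Integrable (fun t => c i * KK r hr (t - τ i)) := (hKI.comp_sub_right _).const_mul _
    refine h5.bdd_mul (c := 1) ?_ ?_
    · exact (continuous_ee.comp (continuous_mul_const x)).aestronglyMeasurable
    · exact ae_of_all _ fun t => (norm_ee _).le
  rw [fourierInv_ee]
  simp_rw [Finset.mul_sum]
  rw [integral_finsetSum _ fun i _ => hI i, h2, Finset.sum_mul]
  apply Finset.sum_congr rfl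
  intro i _
  rw [← integral_add_right_eq_self _ (τ i)]
  have h6 : ∀ t, ee ((t + τ i) * x) * (c i * KK r hr (t + τ i - τ i)) =
      (c i * ee (τ i * x)) * (ee (t * x) * KK r hr t) := by
    intro t
    rw [add_mul, ee_add, add_sub_cancel_right]
    ring
  simp_rw [h6]
  rw [integral_const_mul, ← fourierInv_ee, KK_fourierInv]

/-- The square of the transform of the bump is orthogonal to the large frequencies. -/
theorem HH_orth (r : ℝ) (hr : 0 < r) (ξ : ℝ) (hξ : 2 * r ≤ |ξ|) :
    ∫ x, ee (ξ * x) * HH r hr x ^ 2 = 0 := by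
  have hKc : Continuous (KK r hr) := (KK_smooth r hr).continuous
  set KS : 𝓢(ℝ, ℂ) := (KK_compact r hr).toSchwartzMap (KK_smooth r hr) with hKS
  have h1 : ∀ x, (𝓕⁻ KS) x = HH r hr x ^ 2 := by
    intro x
    rw [SchwartzMap.fourierInv_coe]
    exact KK_fourierInv r hr x
  have h2 : 𝓕 (𝓕⁻ KS) = KS := FourierTransform.fourier_fourierInv_eq KS
  have h3 : (𝓕 (𝓕⁻ KS)) (-ξ) = KK r hr (-ξ) := by
    rw [h2]
    rfl
  rw [SchwartzMap.fourier_coe, fourier_ee, KK_support r hr (-ξ) (by rwa [abs_neg])] at h3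
  rw [← h3]
  congr 1
  ext x
  rw [h1]
  congr 2
  ring

end Q298.Mim
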