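import Mathlib

/-!
Elementary symmetric functions as sums over injective tuples, and the expansion of
`∏ (1 + t λ_i)`.
-/

set_option autoImplicit false

namespace Q298.Mim

open Finset

/-- The sum over the injective `n`-tuples with values in a finite type. -/
noncomputable def es {ι R : Type*} [Fintype ι] [DecidableEq ι] [CommSemiring R] (n : ℕ)
    (l : ι → R) : R :=
  ∑ f : Fin n ↪ ι, ∏ k, l (f k)

theorem es_eq {ι R : Type*} [Fintype ι] [DecidableEq ι] [CommSemiring R] (n : ℕ) (l : ι → R) :
    es n l = (n.factorial : R) * ∑ s ∈ powersetCard n (univ : Finset ι), ∏ i ∈ s, l i := by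
  classical
  unfold es
  have h1 : ∀ f : Fin n ↪ ι, (univ.map f) ∈ powersetCard n (univ : Finset ι) := by
    intro f
    rw [mem_powersetCard]
    exact ⟨subset_univ _, by simp⟩
  rw [← sum_fiberwise_of_maps_to (s := (univ : Finset (Fin n ↪ ι)))
    (t := powersetCard n (univ : Finset ι)) (g := fun f => univ.map f) (fun f _ => h1 f),
    mul_sum]
  apply sum_congr rfl
  intro s hs
  rw [mem_powersetCard] at hs
  have h2 : ∀ f ∈ (univ : Finset (Fin n ↪ ι)).filter (fun f => univ.map f = s),
      ∏ k, l (f k) = ∏ i ∈ s, l i := by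
    intro f hf
    rw [mem_filter] at hf
    rw [← hf.2, prod_map]
  rw [sum_congr rfl h2, sum_const, nsmul_eq_mul]
  congr 1
  norm_cast
  -- count
  have e : {f : Fin n ↪ ι // univ.map f = s} ≃ (Fin n ≃ s) :=
    { toFun := fun f => Equiv.ofBijective
        (fun k => (⟨f.1 k, (Finset.ext_iff.mp f.2 (f.1 k)).mp (mem_map_of_mem f.1 (mem_univ k))⟩ : s)) (by
          constructor
          · intro a b hab
            exact f.1.injective (congrArg Subtype.val hab)
          · intro y
            have hy : y.1 ∈ univ.map f.1 := f.2.symm ▸ y.2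
            rw [mem_map] at hy
            obtain ⟨k, _, hk⟩ := hy
            exact ⟨k, Subtype.ext hk⟩)
      invFun := fun g => ⟨g.toEmbedding.trans (Function.Embedding.subtype _), by
          ext y
          rw [mem_map]
          constructor
          · rintro ⟨k, _, hk⟩
            rw [← hk]
            exact (g k).2
          · intro hy
            exact ⟨g.symm ⟨y, hy⟩, mem_univ _, by simp⟩⟩
      left_inv := fun f => by
        ext k
        rfl
      right_inv := fun g => by
        ext k
        rfl }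
  have h3 : ((univ : Finset (Fin n ↪ ι)).filter (fun f => univ.map f = s)).card =
      Fintype.card {f : Fin n ↪ ι // univ.map f = s} := by
    rw [Fintype.card_subtype]
  rw [h3, Fintype.card_congr e]
  have h4 : Fintype.card (Fin n) = Fintype.card s := by
    rw [Fintype.card_fin, Fintype.card_coe, hs.2]
  rw [Fintype.card_equiv (Fintype.equivOfCardEq h4), Fintype.card_fin]

theorem es_zero_of_lt {ι R : Type*} [Fintype ι] [DecidableEq ι] [CommSemiring R] (n : ℕ)
    (l : ι → R) (h : Fintype.card ι < n) : es n l = 0 := by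
  rw [es_eq]
  have : powersetCard n (univ : Finset ι) = ∅ := by
    rw [powersetCard_eq_empty]
    simpa using h
  rw [this, sum_empty, mul_zero]

/-- Expansion of the product. -/
theorem prod_one_add_eq {ι : Type*} [Fintype ι] [DecidableEq ι] (t : ℝ) (l : ι → ℝ) (K : ℕ)
    (hK : Fintype.card ι + 1 ≤ K) :
    ∏ i, (1 + t * l i) = ∑ n ∈ range K, t ^ n / n.factorial * es n l := by
  rw [Finset.prod_one_add]
  have h1 : ∀ n ∈ range K, t ^ n / n.factorial * es n l =
      ∑ s ∈ powersetCard n (univ : Finset ι), ∏ i ∈ s, (t * l i) := by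
    intro n _
    rw [es_eq, mul_sum, mul_sum]
    apply sum_congr rfl
    intro s hs
    rw [mem_powersetCard] at hs
    rw [prod_mul_distrib, prod_const, hs.2]
    have : (n.factorial : ℝ) ≠ 0 := by positivity
    field_simp
  rw [sum_congr rfl h1]
  have h2 : ∀ s ∈ (univ : Finset ι).powerset, s.card ∈ range K := by
    intro s _
    rw [mem_range]
    have := card_le_univ s
    omega
  rw [← sum_fiberwise_of_maps_to h2]
  apply sum_congr rfl
  intro n _
  apply sum_congr _ (fun _ _ => rfl)
  ext s
  simp [mem_powersetCard]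

theorem es_nonneg {ι : Type*} [Fintype ι] [DecidableEq ι] (n : ℕ) (l : ι → ℝ)
    (hl : ∀ i, 0 ≤ l i) : 0 ≤ es n l :=
  sum_nonneg fun _ _ => prod_nonneg fun _ _ => hl _

theorem es_le {ι : Type*} [Fintype ι] [DecidableEq ι] (n : ℕ) (l : ι → ℝ)
    (hl : ∀ i, 0 ≤ l i) : es n l ≤ (∑ i, l i) ^ n := by
  classical
  have h1 : (∑ i, l i) ^ n = ∑ f : Fin n → ι, ∏ k, l (f k) := by
    have := Finset.prod_univ_sum (fun _ : Fin n => (univ : Finset ι)) (fun _ i => l i)
    rw [prod_const, card_univ, Fintype.card_fin, Fintype.piFinset_univ] at this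
    exact this
  rw [h1]
  unfold es
  have h2 : ∑ f : Fin n ↪ ι, ∏ k, l (f k) =
      ∑ f ∈ (univ : Finset (Fin n ↪ ι)).map ⟨fun f : Fin n ↪ ι => (f : Fin n → ι), DFunLike.coe_injective⟩,
        ∏ k, l (f k) := by
    rw [sum_map]
    rfl
  rw [h2]
  exact sum_le_sum_of_subset_of_nonneg (subset_univ _)
    (fun _ _ _ => prod_nonneg fun _ _ => hl _)

end Q298.Mim
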