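import Pool.Agent.Q298.Mim.Ker

/-!
Diagonalization of the Gram form of a finite family of functions with respect to a weight.
-/

set_option autoImplicit false

namespace Q298.Mim

open Finset MeasureTheory ComplexConjugate Matrix

theorem exists_diag (m : ℕ) (φ : Fin m → ℝ → ℂ) (w : ℝ → ℝ) (hw : ∀ x, 0 ≤ w x)
    (hint : ∀ i j, Integrable (fun x => (w x : ℂ) * (φ i x * conj (φ j x)))) :
    ∃ (ψ : Fin m → ℝ → ℂ) (l : Fin m → ℝ), (∀ i, 0 ≤ l i) ∧
      (∀ i j, Integrable (fun x => (w x : ℂ) * (ψ i x * conj (ψ j x)))) ∧
      (∀ i j, ∫ x, (w x : ℂ) * (ψ i x * conj (ψ j x)) = if i = j then (l i : ℂ) else 0) ∧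
      (∀ x y, ∑ k, ψ k x * conj (ψ k y) = ∑ k, φ k x * conj (φ k y)) ∧
      (∀ (c : Fin m → ℂ) (L : ℝ), L * ∑ i, ‖c i‖ ^ 2 < ∫ x, w x * ‖∑ j, c j * φ j x‖ ^ 2 →
        ∃ k, L < l k) := by
  classical
  set G : Matrix (Fin m) (Fin m) ℂ :=
    Matrix.of fun i j => ∫ x, (w x : ℂ) * (φ j x * conj (φ i x)) with hG
  have hH : G.IsHermitian := by
    ext i j
    rw [Matrix.conjTranspose_apply, hG, Matrix.of_apply, Matrix.of_apply, Complex.star_def,
      ← integral_conj]
    congr 1
    ext x
    simp only [map_mul, Complex.conj_ofReal, Complex.conj_conj]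
    ring
  set U : Matrix (Fin m) (Fin m) ℂ := (hH.eigenvectorUnitary : Matrix (Fin m) (Fin m) ℂ) with hU
  set l : Fin m → ℝ := hH.eigenvalues with hl
  have hU1 : star U * U = 1 := Unitary.coe_star_mul_self hH.eigenvectorUnitary
  have hU2 : U * star U = 1 := Unitary.coe_mul_star_self hH.eigenvectorUnitary
  have hS : G = U * diagonal (RCLike.ofReal ∘ l) * star U := by
    have h := hH.spectral_theorem
    rw [Unitary.conjStarAlgAut_apply] at h
    exact h
  have hD : star U * G * U = diagonal (RCLike.ofReal ∘ l) := by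
    rw [hS]
    calc star U * (U * diagonal (RCLike.ofReal ∘ l) * star U) * U
        = (star U * U) * diagonal (RCLike.ofReal ∘ l) * (star U * U) := by
          simp only [Matrix.mul_assoc]
      _ = _ := by rw [hU1, Matrix.one_mul, Matrix.mul_one]
  set ψ : Fin m → ℝ → ℂ := fun k x => ∑ j, U j k * φ j x with hψ
  have hexp : ∀ i j x, (w x : ℂ) * (ψ i x * conj (ψ j x)) =
      ∑ a, ∑ b, (U a i * conj (U b j)) * ((w x : ℂ) * (φ a x * conj (φ b x))) := by
    intro i j x
    rw [hψ]
    simp only [map_sum, map_mul]
    rw [sum_mul_sum, mul_sum]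
    apply sum_congr rfl
    intro a _
    rw [mul_sum]
    apply sum_congr rfl
    intro b _
    ring
  have hψint : ∀ i j, Integrable (fun x => (w x : ℂ) * (ψ i x * conj (ψ j x))) := by
    intro i j
    simp_rw [hexp]
    exact integrable_finsetSum _ fun a _ => integrable_finsetSum _ fun b _ =>
      (hint a b).const_mul _
  have horth : ∀ i j, ∫ x, (w x : ℂ) * (ψ i x * conj (ψ j x)) =
      if i = j then (l i : ℂ) else 0 := by
    intro i j
    simp_rw [hexp]
    rw [integral_finsetSum _ fun a _ => integrable_finsetSum _ fun b _ =>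
      (hint a b).const_mul _]
    have h1 : ∀ a, ∫ x, ∑ b, (U a i * conj (U b j)) * ((w x : ℂ) * (φ a x * conj (φ b x))) =
        ∑ b, (U a i * conj (U b j)) * G b a := by
      intro a
      rw [integral_finsetSum _ fun b _ => (hint a b).const_mul _]
      apply sum_congr rfl
      intro b _
      rw [integral_const_mul]
      rfl
    simp_rw [h1]
    have h2 : (star U * G * U) j i = ∑ a, ∑ b, (U a i * conj (U b j)) * G b a := by
      rw [Matrix.mul_apply]
      apply sum_congr rfl
      intro a _
      rw [Matrix.mul_apply, sum_mul]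
      apply sum_congr rfl
      intro b _
      rw [Matrix.star_apply, Complex.star_def]
      ring
    rw [← h2, hD, diagonal_apply]
    by_cases hij : i = j
    · subst hij
      simp
    · rw [if_neg hij, if_neg (fun h => hij h.symm)]
  have hl0 : ∀ i, 0 ≤ l i := by
    intro i
    have h1 := horth i i
    rw [if_pos rfl] at h1
    have h2 : ∀ x, (w x : ℂ) * (ψ i x * conj (ψ i x)) = ((w x * ‖ψ i x‖ ^ 2 : ℝ) : ℂ) := by
      intro x
      rw [Complex.mul_conj, Complex.normSq_eq_norm_sq]
      push_cast
      ring
    simp_rw [h2] at h1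
    rw [integral_complex_ofReal] at h1
    have h3 : ∫ x, w x * ‖ψ i x‖ ^ 2 = l i := by exact_mod_cast h1
    rw [← h3]
    exact integral_nonneg fun x => mul_nonneg (hw x) (sq_nonneg _)
  refine ⟨ψ, l, hl0, hψint, horth, ?_, ?_⟩
  · intro x y
    have h1 : ∀ k, ψ k x * conj (ψ k y) =
        ∑ a, ∑ b, (φ a x * conj (φ b y)) * (U a k * conj (U b k)) := by
      intro k
      rw [hψ]
      simp only [map_sum, map_mul]
      rw [sum_mul_sum]
      apply sum_congr rfl
      intro a _
      apply sum_congr rfl
      intro b _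
      ring
    simp_rw [h1]
    rw [sum_comm]
    apply sum_congr rfl
    intro a _
    rw [sum_comm]
    have h2 : ∀ b, ∑ k, (φ a x * conj (φ b y)) * (U a k * conj (U b k)) =
        if a = b then φ a x * conj (φ b y) else 0 := by
      intro b
      rw [← mul_sum]
      have h3 : ∑ k, U a k * conj (U b k) = (U * star U) a b := by
        rw [Matrix.mul_apply]
        rfl
      rw [h3, hU2, Matrix.one_apply]
      split_ifs <;> simp
    simp_rw [h2]
    simp
  · intro c L hL
    by_contra hcon
    push Not at hcon
    set b : Fin m → ℂ := fun k => ∑ j, conj (U j k) * c j with hb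
    have h1 : ∀ x, ∑ j, c j * φ j x = ∑ k, b k * ψ k x := by
      intro x
      have h2 : ∀ k, b k * ψ k x = ∑ j, ∑ a, (c j * φ a x) * (U a k * conj (U j k)) := by
        intro k
        rw [hb, hψ]
        simp only
        rw [sum_mul_sum]
        apply sum_congr rfl
        intro j _
        apply sum_congr rfl
        intro a _
        ring
      simp_rw [h2]
      rw [sum_comm]
      apply sum_congr rfl
      intro j _
      rw [sum_comm]
      have h3 : ∀ a, ∑ k, (c j * φ a x) * (U a k * conj (U j k)) =
          if a = j then c j * φ a x else 0 := by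
        intro a
        rw [← mul_sum]
        have h4 : ∑ k, U a k * conj (U j k) = (U * star U) a j := by
          rw [Matrix.mul_apply]
          rfl
        rw [h4, hU2, Matrix.one_apply]
        split_ifs <;> simp
      simp_rw [h3]
      simp
    have h5 : ∑ k, (‖b k‖ : ℝ) ^ 2 = ∑ i, ‖c i‖ ^ 2 := by
      have h6 : ∀ z : ℂ, ((‖z‖ ^ 2 : ℝ) : ℂ) = z * conj z := by
        intro z
        rw [Complex.mul_conj, Complex.normSq_eq_norm_sq]
      have h7 : ((∑ k, (‖b k‖ : ℝ) ^ 2 : ℝ) : ℂ) = ((∑ i, ‖c i‖ ^ 2 : ℝ) : ℂ) := by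
        rw [Complex.ofReal_sum, Complex.ofReal_sum]
        simp_rw [h6]
        have h8 : ∀ k, b k * conj (b k) =
            ∑ i, ∑ j, (c i * conj (c j)) * (conj (U i k) * U j k) := by
          intro k
          rw [hb]
          simp only [map_sum, map_mul, Complex.conj_conj]
          rw [sum_mul_sum]
          apply sum_congr rfl
          intro i _
          apply sum_congr rfl
          intro j _
          ring
        simp_rw [h8]
        rw [sum_comm]
        apply sum_congr rfl
        intro i _
        rw [sum_comm]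
        have h9 : ∀ j, ∑ k, (c i * conj (c j)) * (conj (U i k) * U j k) =
            if j = i then c i * conj (c j) else 0 := by
          intro j
          rw [← mul_sum]
          have h4 : ∑ k, conj (U i k) * U j k = (U * star U) j i := by
            rw [Matrix.mul_apply]
            apply sum_congr rfl
            intro k _
            rw [Matrix.star_apply, Complex.star_def]
            ring
          rw [h4, hU2, Matrix.one_apply]
          split_ifs <;> simp
        simp_rw [h9]
        simp
      exact_mod_cast h7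
    have h10 : ∫ x, w x * ‖∑ j, c j * φ j x‖ ^ 2 = ∑ k, l k * ‖b k‖ ^ 2 := by
      have h11 : ∀ x, ((w x * ‖∑ j, c j * φ j x‖ ^ 2 : ℝ) : ℂ) =
          ∑ i, ∑ j, (b i * conj (b j)) * ((w x : ℂ) * (ψ i x * conj (ψ j x))) := by
        intro x
        rw [h1 x]
        push_cast
        rw [← Complex.ofReal_pow, ← Complex.normSq_eq_norm_sq, ← Complex.mul_conj]
        simp only [map_sum, map_mul]
        rw [sum_mul_sum, mul_sum]
        apply sum_congr rfl
        intro i _
        rw [mul_sum]
        apply sum_congr rfl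
        intro j _
        ring
      have h12 : ((∫ x, w x * ‖∑ j, c j * φ j x‖ ^ 2 : ℝ) : ℂ) = ∑ k, (l k : ℂ) * ‖b k‖ ^ 2 := by
        rw [← integral_complex_ofReal]
        simp_rw [h11]
        rw [integral_finsetSum _ fun a _ => integrable_finsetSum _ fun b _ =>
          (hψint a b).const_mul _]
        apply sum_congr rfl
        intro i _
        rw [integral_finsetSum _ fun b _ => (hψint i b).const_mul _]
        simp_rw [integral_const_mul, horth]
        simp only [mul_ite, mul_zero, sum_ite_eq, mem_univ, if_true]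
        rw [Complex.mul_conj, Complex.normSq_eq_norm_sq]
        push_cast
        ring
      exact_mod_cast h12
    rw [h10, ← h5, mul_sum] at hL
    have h13 : ∑ k, l k * ‖b k‖ ^ 2 ≤ ∑ k, L * ‖b k‖ ^ 2 :=
      sum_le_sum fun k _ => mul_le_mul_of_nonneg_right (hcon k) (sq_nonneg _)
    linarith

end Q298.Mim
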