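import Pool.Agent.Q298.Mim.Comb

/-!
The integral of the determinant of a kernel of finite rank whose functions are orthogonal for the
weight.
-/

set_option autoImplicit false

namespace Q298.Mim

open Finset MeasureTheory ComplexConjugate

theorem sum_inj {ι : Type*} [Fintype ι] [DecidableEq ι] (n : ℕ) (g : (Fin n → ι) → ℂ)
    (h : ∀ f : Fin n → ι, ¬ Function.Injective f → g f = 0) :
    ∑ f : Fin n → ι, g f = ∑ f : Fin n ↪ ι, g f := by
  classical
  have h1 : ∑ f : Fin n ↪ ι, g f =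
      ∑ f ∈ (univ : Finset (Fin n ↪ ι)).map
        ⟨fun f : Fin n ↪ ι => (f : Fin n → ι), DFunLike.coe_injective⟩, g f := by
    rw [sum_map]
    rfl
  rw [h1]
  symm
  apply sum_subset (subset_univ _)
  intro f _ hf
  apply h
  intro hinj
  apply hf
  rw [mem_map]
  exact ⟨⟨f, hinj⟩, mem_univ _, rfl⟩

theorem det_delta {ι : Type*} [DecidableEq ι] (n : ℕ) (f : Fin n → ι) (l : ι → ℂ) :
    (Matrix.of fun a b : Fin n => if f b = f a then l (f b) else 0).det =
      if Function.Injective f then ∏ k, l (f k) else 0 := by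
  classical
  split_ifs with h
  · have : (Matrix.of fun a b : Fin n => if f b = f a then l (f b) else 0) =
        Matrix.diagonal fun k => l (f k) := by
      ext a b
      rw [Matrix.of_apply, Matrix.diagonal_apply]
      by_cases hab : a = b
      · subst hab
        simp
      · rw [if_neg (fun h' => hab (h h').symm), if_neg hab]
    rw [this, Matrix.det_diagonal]
  · unfold Function.Injective at h
    push Not at h
    obtain ⟨a, b, hab, hne⟩ := h
    apply Matrix.det_zero_of_row_eq hne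
    ext c
    rw [Matrix.of_apply, Matrix.of_apply, hab]

theorem integral_det {ι : Type*} [Fintype ι] [DecidableEq ι] (n : ℕ) (w : ℝ → ℝ)
    (ψ : ι → ℝ → ℂ) (l : ι → ℝ)
    (hint : ∀ i j, Integrable (fun x => (w x : ℂ) * (ψ i x * conj (ψ j x))))
    (horth : ∀ i j, ∫ x, (w x : ℂ) * (ψ i x * conj (ψ j x)) = if i = j then (l i : ℂ) else 0) :
    ∫ x : Fin n → ℝ, (∏ k, (w (x k) : ℂ)) *
      (Matrix.of fun a b : Fin n => ∑ i, ψ i (x a) * conj (ψ i (x b))).det = (es n l : ℝ) := by
  classical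
  have h1 : ∀ x : Fin n → ℝ, (∏ k, (w (x k) : ℂ)) *
      (Matrix.of fun a b : Fin n => ∑ i, ψ i (x a) * conj (ψ i (x b))).det =
      ∑ σ : Equiv.Perm (Fin n), ∑ f : Fin n → ι, ((Equiv.Perm.sign σ : ℤ) : ℂ) *
        ∏ k, ((w (x k) : ℂ) * (ψ (f (σ⁻¹ k)) (x k) * conj (ψ (f k) (x k)))) := by
    intro x
    rw [Matrix.det_apply', mul_sum]
    apply sum_congr rfl
    intro σ _
    simp only [Matrix.of_apply]
    have h2 : ∏ k, ∑ i, ψ i (x (σ k)) * conj (ψ i (x k)) =
        ∑ f : Fin n → ι, ∏ k, (ψ (f k) (x (σ k)) * conj (ψ (f k) (x k))) := by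
      have := Finset.prod_univ_sum (fun _ : Fin n => (univ : Finset ι))
        (fun k i => ψ i (x (σ k)) * conj (ψ i (x k)))
      rw [Fintype.piFinset_univ] at this
      exact this
    rw [h2, mul_sum, mul_sum]
    apply sum_congr rfl
    intro f _
    rw [prod_mul_distrib, prod_mul_distrib, prod_mul_distrib]
    have h3 : ∏ k, ψ (f k) (x (σ k)) = ∏ k, ψ (f (σ⁻¹ k)) (x k) := by
      rw [← Equiv.prod_comp σ (fun k => ψ (f (σ⁻¹ k)) (x k))]
      apply prod_congr rfl
      intro k _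
      simp
    rw [h3]
    ring
  simp_rw [h1]
  have hI : ∀ (σ : Equiv.Perm (Fin n)) (f : Fin n → ι), Integrable (fun x : Fin n → ℝ =>
      ∏ k, ((w (x k) : ℂ) * (ψ (f (σ⁻¹ k)) (x k) * conj (ψ (f k) (x k))))) := by
    intro σ f
    exact Integrable.fintype_prod (f := fun k y => (w y : ℂ) * (ψ (f (σ⁻¹ k)) y *
      conj (ψ (f k) y))) (fun k => hint _ _)
  rw [integral_finsetSum _ (fun σ _ => integrable_finsetSum _ (fun f _ => (hI σ f).const_mul _))]
  have h4 : ∀ σ : Equiv.Perm (Fin n), ∫ x : Fin n → ℝ, ∑ f : Fin n → ι,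
      ((Equiv.Perm.sign σ : ℤ) : ℂ) *
        ∏ k, ((w (x k) : ℂ) * (ψ (f (σ⁻¹ k)) (x k) * conj (ψ (f k) (x k)))) =
      ∑ f : Fin n → ι, ((Equiv.Perm.sign σ : ℤ) : ℂ) *
        ∏ k, (Matrix.of fun a b : Fin n => if f b = f a then (l (f b) : ℂ) else 0) (σ k) k := by
    intro σ
    rw [integral_finsetSum _ (fun f _ => (hI σ f).const_mul _)]
    apply sum_congr rfl
    intro f _
    rw [integral_const_mul]
    congr 1
    rw [integral_fintype_prod_volume_eq_prod (fun k y => (w y : ℂ) * (ψ (f (σ⁻¹ k)) y *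
      conj (ψ (f k) y)))]
    rw [← Equiv.prod_comp σ]
    apply prod_congr rfl
    intro k _
    rw [horth, Matrix.of_apply]
    simp
  simp_rw [h4]
  rw [sum_comm]
  have h5 : ∀ f : Fin n → ι, ∑ σ : Equiv.Perm (Fin n), ((Equiv.Perm.sign σ : ℤ) : ℂ) *
        ∏ k, (Matrix.of fun a b : Fin n => if f b = f a then (l (f b) : ℂ) else 0) (σ k) k =
      if Function.Injective f then ∏ k, (l (f k) : ℂ) else 0 := by
    intro f
    rw [← Matrix.det_apply', det_delta n f (fun i => (l i : ℂ))]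
  simp_rw [h5]
  rw [sum_inj n _ (fun f hf => if_neg hf)]
  unfold es
  push_cast
  apply sum_congr rfl
  intro f _
  rw [if_pos f.injective]

end Q298.Mim
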