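import Pool.Agent.Q298.Mim.Comb

/-!
Moments of linear statistics of a point process with uniform local moments.
-/

set_option autoImplicit false

namespace Q298.Mim

open Finset MeasureTheory Filter Topology
open scoped ENNReal

theorem tsum_pow_le {ι : Type*} (c N : ι → ℝ≥0∞) (n : ℕ) (hn : 1 ≤ n) :
    (∑' x, c x * N x) ^ n ≤ (∑' x, c x) ^ (n - 1) * ∑' x, c x * N x ^ n := by
  have hp : (1 : ℝ) ≤ (n : ℝ) := by exact_mod_cast hn
  have hp0 : (0 : ℝ) < (n : ℝ) := by linarith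
  have h1 : ∑' x, c x * N x ≤
      (∑' x, c x) ^ (1 - (n : ℝ)⁻¹) * (∑' x, c x * N x ^ (n : ℝ)) ^ ((n : ℝ)⁻¹) := by
    rw [ENNReal.tsum_eq_iSup_sum]
    apply iSup_le
    intro s
    refine (ENNReal.inner_le_weight_mul_Lp_of_nonneg s hp c N).trans ?_
    gcongr
    · rw [sub_nonneg]
      exact inv_le_one_of_one_le₀ hp
    · exact ENNReal.sum_le_tsum s
    · exact ENNReal.sum_le_tsum s
  have h2 := ENNReal.rpow_le_rpow h1 hp0.le
  rw [ENNReal.mul_rpow_of_nonneg _ _ hp0.le, ← ENNReal.rpow_mul, ← ENNReal.rpow_mul,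
    inv_mul_cancel₀ hp0.ne', ENNReal.rpow_one, sub_mul, inv_mul_cancel₀ hp0.ne', one_mul,
    ENNReal.rpow_natCast] at h2
  have h3 : (n : ℝ) - 1 = ((n - 1 : ℕ) : ℝ) := by
    rw [Nat.cast_sub hn]
    simp
  rw [h3, ENNReal.rpow_natCast] at h2
  simp_rw [ENNReal.rpow_natCast] at h2
  exact h2

theorem tsum_emb_le (n : ℕ) (b : ℕ → ℝ≥0∞) :
    ∑' f : Fin n ↪ ℕ, ∏ i, b (f i) ≤ (∑' j, b j) ^ n := by
  classical
  rw [ENNReal.tsum_eq_iSup_sum]
  apply iSup_le
  intro s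
  obtain ⟨M, hM⟩ : ∃ M : ℕ, ∀ f ∈ s, ∀ i, f i < M := by
    refine ⟨(s.sup fun f => univ.sup fun i => f i) + 1, fun f hf i => ?_⟩
    have h1 : f i ≤ univ.sup fun i => f i := le_sup (f := fun i => f i) (mem_univ i)
    have h2 : (univ.sup fun i => f i) ≤ s.sup fun f => univ.sup fun i => f i :=
      le_sup (f := fun f : Fin n ↪ ℕ => univ.sup fun i => f i) hf
    omega
  have h1 : (∑ j ∈ range M, b j) ^ n =
      ∑ f ∈ Fintype.piFinset (fun _ : Fin n => range M), ∏ i, b (f i) := by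
    have := Finset.prod_univ_sum (fun _ : Fin n => range M) (fun _ j => b j)
    rw [prod_const, card_univ, Fintype.card_fin] at this
    exact this
  have h2 : ∑ f ∈ s, ∏ i, b (f i) = ∑ f ∈ s.map
      ⟨fun f : Fin n ↪ ℕ => (f : Fin n → ℕ), DFunLike.coe_injective⟩, ∏ i, b (f i) := by
    rw [sum_map]
    rfl
  calc ∑ f ∈ s, ∏ i, b (f i) = _ := h2
    _ ≤ ∑ f ∈ Fintype.piFinset (fun _ : Fin n => range M), ∏ i, b (f i) := by
        apply sum_le_sum_of_subset
        intro f hf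
        rw [Finset.mem_map] at hf
        obtain ⟨g, hg, rfl⟩ := hf
        rw [Fintype.mem_piFinset]
        intro i
        rw [mem_range]
        exact hM g hg i
    _ = (∑ j ∈ range M, b j) ^ n := h1.symm
    _ ≤ (∑' j, b j) ^ n := by
        gcongr
        exact ENNReal.sum_le_tsum _

theorem decay_floor (C : ℝ) (hC : 0 ≤ C) (w : ℝ → ℝ) (hw : ∀ x, w x ≤ C / (1 + x ^ 2)) (y : ℝ) :
    w y ≤ 3 * C / (1 + (⌊y⌋ : ℝ) ^ 2) := by
  refine (hw y).trans ?_
  rw [div_le_div_iff₀ (by positivity) (by positivity)]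
  have h1 := Int.floor_le y
  have h2 := Int.lt_floor_add_one y
  have h3 : (1 : ℝ) + (⌊y⌋ : ℝ) ^ 2 ≤ 3 * (1 + y ^ 2) := by nlinarith [sq_nonneg (y + 1), sq_nonneg (y - 1)]
  nlinarith

theorem summable_c (C : ℝ) : Summable fun x : ℤ => 3 * C / (1 + (x : ℝ) ^ 2) := by
  have h1 : Summable fun x : ℤ => (1 : ℝ) / (x : ℝ) ^ 2 := by
    exact Real.summable_one_div_int_pow.mpr (by norm_num)
  have h2 : Summable fun x : ℤ => (1 : ℝ) / (1 + (x : ℝ) ^ 2) := by
    have h3 : Summable fun x : ℤ => (1 : ℝ) / (x : ℝ) ^ 2 + (if x = 0 then (1 : ℝ) else 0) :=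
      h1.add (summable_of_ne_finset_zero (s := {0}) (by
        intro b hb
        rw [if_neg (by simpa using hb)]))
    refine Summable.of_nonneg_of_le (fun x => by positivity) ?_ h3
    intro x
    by_cases hx : x = 0
    · subst hx
      simp
    · rw [if_neg hx, add_zero]
      apply one_div_le_one_div_of_le
      · positivity
      · linarith
  refine (h2.mul_left (3 * C)).congr ?_
  intro x
  ring

/-- The contribution of the point with index `j` to the linear statistic of `w`. -/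
noncomputable def WW {Ω : Type*} (live : ℕ → Set Ω) (pos : ℕ → Ω → ℝ) (w : ℝ → ℝ) (j : ℕ)
    (ω : Ω) : ℝ := (live j).indicator (fun ω => w (pos j ω)) ω

theorem moment_lt_top {Ω : Type*} [MeasurableSpace Ω] (P : Measure Ω) (live : ℕ → Set Ω)
    (pos : ℕ → Ω → ℝ) (hlive : ∀ j, MeasurableSet (live j)) (hpos : ∀ j, Measurable (pos j))
    (hulm : ∀ k : ℕ, 1 ≤ k → ∃ C : ℝ≥0∞, C ≠ ∞ ∧ ∀ x : ℝ,
      ∫⁻ ω, (∑' j, (live j ∩ pos j ⁻¹' Set.Icc x (x + 1)).indicator 1 ω) ^ k ∂P ≤ C)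
    (w : ℝ → ℝ) (C : ℝ) (hC : 0 ≤ C) (hw : ∀ x, w x ≤ C / (1 + x ^ 2)) (n : ℕ) (hn : 1 ≤ n) :
    ∫⁻ ω, (∑' j, ENNReal.ofReal (WW live pos w j ω)) ^ n ∂P ≠ ∞ := by
  obtain ⟨D, hD, hulm⟩ := hulm n hn
  set N : ℤ → Ω → ℝ≥0∞ := fun x ω =>
    ∑' j, (live j ∩ pos j ⁻¹' Set.Icc (x : ℝ) (x + 1)).indicator 1 ω with hN
  set c : ℤ → ℝ≥0∞ := fun x => ENNReal.ofReal (3 * C / (1 + (x : ℝ) ^ 2)) with hc
  have hcs : ∑' x, c x ≠ ∞ := (summable_c C).tsum_ofReal_ne_top
  have h1 : ∀ ω, ∑' j, ENNReal.ofReal (WW live pos w j ω) ≤ ∑' x, c x * N x ω := by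
    intro ω
    have h2 : ∀ j, ENNReal.ofReal (WW live pos w j ω) ≤
        ∑' x : ℤ, c x * (live j ∩ pos j ⁻¹' Set.Icc (x : ℝ) (x + 1)).indicator 1 ω := by
      intro j
      by_cases hj : ω ∈ live j
      · have h3 : ENNReal.ofReal (WW live pos w j ω) ≤ c ⌊pos j ω⌋ *
            (live j ∩ pos j ⁻¹' Set.Icc (⌊pos j ω⌋ : ℝ) (⌊pos j ω⌋ + 1)).indicator 1 ω := by
          rw [Set.indicator_of_mem (by
            refine ⟨hj, ?_⟩
            rw [Set.mem_preimage]
            exact ⟨Int.floor_le _, (Int.lt_floor_add_one _).le⟩)]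
          rw [Pi.one_apply, mul_one]
          unfold WW
          rw [Set.indicator_of_mem hj]
          exact ENNReal.ofReal_le_ofReal (decay_floor C hC w hw _)
        exact h3.trans (ENNReal.le_tsum (f := fun x : ℤ => c x *
          (live j ∩ pos j ⁻¹' Set.Icc (x : ℝ) (x + 1)).indicator 1 ω) _)
      · unfold WW
        rw [Set.indicator_of_notMem hj]
        simp
    refine (ENNReal.tsum_le_tsum h2).trans ?_
    rw [ENNReal.tsum_comm]
    apply le_of_eq
    congr 1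
    ext x
    rw [ENNReal.tsum_mul_left]
  have hNm : ∀ x, Measurable (N x) := by
    intro x
    apply Measurable.tsum
    intro j
    exact measurable_one.indicator ((hlive j).inter ((hpos j) measurableSet_Icc))
  have h4 : ∫⁻ ω, (∑' j, ENNReal.ofReal (WW live pos w j ω)) ^ n ∂P ≤
      ∫⁻ ω, (∑' x, c x) ^ (n - 1) * ∑' x, c x * N x ω ^ n ∂P := by
    apply lintegral_mono
    intro ω
    refine (pow_le_pow_left₀ zero_le (h1 ω) n).trans ?_
    exact tsum_pow_le c (fun x => N x ω) n hn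
  refine ne_top_of_le_ne_top ?_ h4
  rw [lintegral_const_mul _ (by
    apply Measurable.tsum
    intro x
    exact ((hNm x).pow_const n).const_mul _)]
  apply ENNReal.mul_ne_top (ENNReal.pow_ne_top hcs)
  rw [lintegral_tsum (fun x => (((hNm x).pow_const n).const_mul _).aemeasurable)]
  have h5 : ∀ x, ∫⁻ ω, c x * N x ω ^ n ∂P ≤ c x * D := by
    intro x
    rw [lintegral_const_mul _ ((hNm x).pow_const n)]
    gcongr
    exact hulm x
  refine ne_top_of_le_ne_top ?_ (ENNReal.tsum_le_tsum h5)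
  rw [ENNReal.tsum_mul_right]
  exact ENNReal.mul_ne_top hcs hD

end Q298.Mim
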