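import Pool.Agent.Q298.Mim.Trig

/-!
A trigonometric polynomial of degree `N - d` for which the form of `v` is negative.
-/

set_option autoImplicit false

namespace Q298.Mim

open MeasureTheory Filter Topology ComplexConjugate

theorem ee_nat_mul (n : ℕ) (y : ℝ) : ee (n * y) = ee y ^ n := by
  induction n with
  | zero => simp [ee_zero]
  | succ n ih =>
    rw [pow_succ, ← ih, ← ee_add]
    congr 1
    push_cast
    ring

theorem ee_neg_mul (y : ℝ) : ee y * ee (-y) = 1 := by
  rw [← ee_add, add_neg_cancel, ee_zero]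

theorem ee_half (N : ℕ) : ee (1 / (2 * N)) + ee (-(1 / (2 * N))) = 2 * (Real.cos (Real.pi / N) : ℂ) := by
  push_cast
  rw [Complex.cos]
  have h1 : ee (1 / (2 * N)) = Complex.exp (Real.pi / N * Complex.I) := by
    rw [ee_eq]
    congr 1
    push_cast
    by_cases hN : (N : ℂ) = 0
    · rw [hN]
      simp
    · field_simp
  have h2 : ee (-(1 / (2 * N))) = Complex.exp (-(Real.pi / N : ℂ) * Complex.I) := by
    rw [ee_eq]
    congr 1
    push_cast
    by_cases hN : (N : ℂ) = 0
    · rw [hN]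
      simp
    · field_simp
  rw [h1, h2]
  ring

theorem vf_factor (T : ℝ) (N i : ℕ) (hN : 1 ≤ N) (x : ℝ) : (vf T N i x : ℂ) * ee (x / T) =
    -(1 / (4 * ee ((4 * i + 1) / (2 * N)))) *
      ((ee (x / T) - ee ((2 * i : ℕ) / N)) * (ee (x / T) - ee ((2 * i + 1 : ℕ) / N))) := by
  have hN0 : (0 : ℝ) < N := by exact_mod_cast hN
  rw [vf_complex]
  set z := ee (x / T) with hz
  set z' := ee (-(x / T)) with hz'
  set ζ := ee ((4 * i + 1) / (2 * N)) with hζ
  set ζ' := ee (-((4 * i + 1) / (2 * N))) with hζ'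
  set u := ee (1 / (2 * N)) with hu
  set u' := ee (-(1 / (2 * N))) with hu'
  have e1 : ee ((2 * i : ℕ) / N) = ζ * u' := by
    rw [hζ, hu', ← ee_add]
    congr 1
    push_cast
    field_simp
    ring
  have e2 : ee ((2 * i + 1 : ℕ) / N) = ζ * u := by
    rw [hζ, hu, ← ee_add]
    congr 1
    push_cast
    field_simp
    ring
  have e3 : u + u' = 2 * (Real.cos (Real.pi / N) : ℂ) := ee_half N
  have e4 : z * z' = 1 := ee_neg_mul _
  have e5 : ζ * ζ' = 1 := ee_neg_mul _
  have e6 : u * u' = 1 := ee_neg_mul _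
  have hζ0 : ζ ≠ 0 := ee_ne _
  rw [e1, e2]
  have e7 : ζ' = 1 / ζ := by
    rw [eq_div_iff hζ0]
    linear_combination e5
  rw [e7]
  field_simp
  linear_combination (-2 * ζ ^ 2) * e4 + (2 * ζ ^ 2) * e6 - (2 * z * ζ) * e3

/-- The constant of the factorization. -/
noncomputable def kap (N d : ℕ) : ℂ := ∏ i ∈ Finset.range d, -(1 / (4 * ee ((4 * i + 1) / (2 * N))))

theorem kap_ne (N d : ℕ) : kap N d ≠ 0 := by
  unfold kap
  rw [Finset.prod_ne_zero_iff]
  intro i _
  have := ee_ne ((4 * i + 1) / (2 * N))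
  simp [this]

theorem prod_pairs (f : ℕ → ℂ) (d : ℕ) :
    ∏ i ∈ Finset.range d, (f (2 * i) * f (2 * i + 1)) = ∏ k ∈ Finset.range (2 * d), f k := by
  induction d with
  | zero => simp
  | succ d ih =>
    rw [Finset.prod_range_succ, ih]
    have : 2 * (d + 1) = 2 * d + 1 + 1 := by ring
    rw [this, Finset.prod_range_succ, Finset.prod_range_succ]
    ring

theorem prod_all (N : ℕ) (hN : 1 ≤ N) (z : ℂ) :
    ∏ k ∈ Finset.range N, (z - ee ((k : ℕ) / N)) = z ^ N - 1 := by
  have hN0 : (0 : ℝ) < N := by exact_mod_cast hN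
  have hprim : IsPrimitiveRoot (Complex.exp (2 * Real.pi * Complex.I / N)) N :=
    Complex.isPrimitiveRoot_exp N (by omega)
  have h1 := X_pow_sub_C_eq_prod hprim (α := 1) (a := 1) (by omega) (one_pow N)
  have h2 := congrArg (Polynomial.eval z) h1
  simp only [Polynomial.eval_sub, Polynomial.eval_pow, Polynomial.eval_X, Polynomial.eval_C,
    Polynomial.eval_prod, mul_one] at h2
  rw [h2]
  apply Finset.prod_congr rfl
  intro k _
  congr 1
  rw [← Complex.exp_nat_mul, ee_eq]
  congr 1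
  push_cast
  ring

theorem vv_factor (T : ℝ) (N d : ℕ) (hN : 1 ≤ N) (h2d : 2 * d ≤ N) (x : ℝ) :
    (vv T N d x : ℂ) * ee (x / T) ^ d *
      ∏ k ∈ Finset.Ico (2 * d) N, (ee (x / T) - ee ((k : ℕ) / N)) =
      kap N d * (ee (x / T) ^ N - 1) := by
  have h1 : (vv T N d x : ℂ) * ee (x / T) ^ d =
      kap N d * ∏ k ∈ Finset.range (2 * d), (ee (x / T) - ee ((k : ℕ) / N)) := by
    rw [← prod_pairs (fun k => ee (x / T) - ee ((k : ℕ) / N)) d]
    unfold vv kap
    push_cast
    rw [← Finset.prod_mul_distrib]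
    have h2 : ee (x / T) ^ d = ∏ _i ∈ Finset.range d, ee (x / T) := by simp
    rw [h2, ← Finset.prod_mul_distrib]
    apply Finset.prod_congr rfl
    intro i _
    rw [vf_factor T N i hN x]
    push_cast
    rfl
  rw [h1, mul_assoc, Finset.prod_range_mul_prod_Ico _ h2d, prod_all N hN]

open Polynomial in
/-- The polynomial with the prescribed zeros. -/
noncomputable def PP (N d : ℕ) (y : ℂ) : Polynomial ℂ :=
  (∏ k ∈ Finset.Ico (2 * d) N, (X - C (ee ((k : ℕ) / N)))) * (X ^ d + C y)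

open Polynomial in
theorem PP_monic (N d : ℕ) (hd : 1 ≤ d) (y : ℂ) : (PP N d y).Monic := by
  unfold PP
  apply Monic.mul
  · exact monic_prod_of_monic _ _ fun i _ => monic_X_sub_C _
  · exact monic_X_pow_add_C y (by omega)

open Polynomial in
theorem PP_natDegree (N d : ℕ) (hd : 1 ≤ d) (h2d : 2 * d ≤ N) (y : ℂ) :
    (PP N d y).natDegree = N - d := by
  unfold PP
  rw [Monic.natDegree_mul (monic_prod_of_monic _ _ fun i _ => monic_X_sub_C _)
    (monic_X_pow_add_C y (by omega)), natDegree_prod_of_monic _ _ fun i _ => monic_X_sub_C _,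
    natDegree_X_pow_add_C]
  simp only [natDegree_X_sub_C, Finset.sum_const, Nat.card_Ico, smul_eq_mul, mul_one]
  omega

theorem PP_coeff_zero (N d : ℕ) (hd : 1 ≤ d) (y : ℂ) :
    (PP N d y).coeff 0 = (∏ k ∈ Finset.Ico (2 * d) N, (-ee ((k : ℕ) / N))) * y := by
  rw [Polynomial.coeff_zero_eq_eval_zero]
  unfold PP
  rw [Polynomial.eval_mul, Polynomial.eval_prod]
  simp only [Polynomial.eval_sub, Polynomial.eval_X, Polynomial.eval_C, Polynomial.eval_add,
    Polynomial.eval_pow, zero_sub]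
  rw [zero_pow (by omega), zero_add]

theorem PP_coeff_top (N d : ℕ) (hd : 1 ≤ d) (h2d : 2 * d ≤ N) (y : ℂ) :
    (PP N d y).coeff (N - d) = 1 := by
  rw [← PP_natDegree N d hd h2d y]
  exact PP_monic N d hd y

theorem PP_eval (N d : ℕ) (hd : 1 ≤ d) (h2d : 2 * d ≤ N) (y z : ℂ) :
    ∑ j ∈ Finset.range (N - d + 1), (PP N d y).coeff j * z ^ j = (PP N d y).eval z := by
  rw [Polynomial.eval_eq_sum_range, PP_natDegree N d hd h2d]

/-- The integrals of the form. -/
theorem form_eq (T : ℝ) (N d : ℕ) (hd : 1 ≤ d) (h2d : 2 * d ≤ N) (h : ℝ → ℝ)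
    (hhI : Integrable h) (horth : ∀ k : ℤ, k ≠ 0 → ∫ x, ee (k / T * x) * (h x : ℂ) = 0) (y : ℂ) :
    ((∫ x, vv T N d x * ‖∑ j ∈ Finset.range (N - d + 1), (PP N d y).coeff j * ee (j / T * x)‖ ^ 2 *
      h x : ℝ) : ℂ) = kap N d * (y - conj ((PP N d y).coeff 0)) * ((∫ x, h x : ℝ) : ℂ) := by
  have hN : 1 ≤ N := by omega
  have hI : ∀ k : ℤ, Integrable (fun x => ee (k / T * x) * (h x : ℂ)) := by
    intro k
    refine hhI.ofReal.bdd_mul (c := 1) ?_ ?_
    · exact (continuous_ee.comp (continuous_const_mul _)).aestronglyMeasurable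
    · exact ae_of_all _ fun t => (norm_ee _).le
  have hpt : ∀ x, ((vv T N d x * ‖∑ j ∈ Finset.range (N - d + 1), (PP N d y).coeff j * ee (j / T * x)‖ ^ 2 *
      h x : ℝ) : ℂ) = ∑ j ∈ Finset.range (N - d + 1), (kap N d * conj ((PP N d y).coeff j)) *
        (ee (((N - j : ℤ) : ℝ) / T * x) * (h x : ℂ) +
          y * (ee (((N - d - j : ℤ) : ℝ) / T * x) * (h x : ℂ)) -
          ee (((-j : ℤ) : ℝ) / T * x) * (h x : ℂ) -
          y * (ee (((-d - j : ℤ) : ℝ) / T * x) * (h x : ℂ))) := by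
    intro x
    set z := ee (x / T) with hz
    have hz0 : z ≠ 0 := ee_ne _
    set S := ∑ j ∈ Finset.range (N - d + 1), (PP N d y).coeff j * ee (j / T * x) with hS
    have hS1 : S = (PP N d y).eval z := by
      rw [← PP_eval N d hd h2d, hS]
      apply Finset.sum_congr rfl
      intro j _
      rw [hz, ← ee_nat_mul]
      congr 2
      ring
    have hS2 : conj S = ∑ j ∈ Finset.range (N - d + 1), conj ((PP N d y).coeff j) * ee (-(j / T * x)) := by
      rw [hS, map_sum]
      apply Finset.sum_congr rfl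
      intro j _
      rw [map_mul, conj_ee]
    have hvS : (vv T N d x : ℂ) * S = kap N d * (z ^ N - 1) * (1 + y * ee (-(d * (x / T)))) := by
      have h1 := vv_factor T N d hN h2d x
      have h2 : S = (∏ k ∈ Finset.Ico (2 * d) N, (z - ee ((k : ℕ) / N))) * (z ^ d + y) := by
        rw [hS1]
        unfold PP
        simp [Polynomial.eval_prod]
      have h3 : z ^ d * ee (-(d * (x / T))) = 1 := by
        rw [hz, ← ee_nat_mul, ee_neg_mul]
      have hzd : z ^ d ≠ 0 := pow_ne_zero _ hz0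
      apply mul_right_cancel₀ hzd
      rw [h2]
      have h4 : kap N d * (z ^ N - 1) * (1 + y * ee (-(d * (x / T)))) * z ^ d =
          kap N d * (z ^ N - 1) * (z ^ d + y) := by
        linear_combination (kap N d * (z ^ N - 1) * y) * h3
      rw [h4]
      linear_combination (z ^ d + y) * h1
    have h5 : ((vv T N d x * ‖S‖ ^ 2 * h x : ℝ) : ℂ) = ((vv T N d x : ℂ) * S) * conj S * h x := by
      push_cast
      rw [← Complex.ofReal_pow, ← Complex.normSq_eq_norm_sq, ← Complex.mul_conj]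
      ring
    rw [h5, hvS, hS2, Finset.mul_sum, Finset.sum_mul]
    apply Finset.sum_congr rfl
    intro j _
    have e1 : ee (((N - j : ℤ) : ℝ) / T * x) = z ^ N * ee (-(j / T * x)) := by
      rw [hz, ← ee_nat_mul, ← ee_add]
      congr 1
      push_cast
      ring
    have e2 : ee (((N - d - j : ℤ) : ℝ) / T * x) =
        z ^ N * ee (-(d * (x / T))) * ee (-(j / T * x)) := by
      rw [hz, ← ee_nat_mul, ← ee_add, ← ee_add]
      congr 1
      push_cast
      ring
    have e3 : ee (((-j : ℤ) : ℝ) / T * x) = ee (-(j / T * x)) := by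
      congr 1
      push_cast
      ring
    have e4 : ee (((-d - j : ℤ) : ℝ) / T * x) = ee (-(d * (x / T))) * ee (-(j / T * x)) := by
      rw [← ee_add]
      congr 1
      push_cast
      ring
    rw [e1, e2, e3, e4]
    ring
  rw [← integral_complex_ofReal]
  simp_rw [hpt]
  have hI4 : ∀ j : ℕ, Integrable (fun x =>
      (ee (((N - j : ℤ) : ℝ) / T * x) * (h x : ℂ) +
          y * (ee (((N - d - j : ℤ) : ℝ) / T * x) * (h x : ℂ)) -
          ee (((-j : ℤ) : ℝ) / T * x) * (h x : ℂ) -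
          y * (ee (((-d - j : ℤ) : ℝ) / T * x) * (h x : ℂ)))) := fun j =>
    (((hI _).add ((hI _).const_mul _)).sub (hI _)).sub ((hI _).const_mul _)
  rw [integral_finsetSum _ fun j _ => (hI4 j).const_mul _]
  set M : ℂ := ((∫ x, h x : ℝ) : ℂ) with hM
  have hval : ∀ k : ℤ, ∫ x, ee (k / T * x) * (h x : ℂ) = if k = 0 then M else 0 := by
    intro k
    split_ifs with hk
    · subst hk
      simp only [Int.cast_zero, zero_div, zero_mul, ee_zero, one_mul]
      rw [integral_complex_ofReal]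
    · exact horth k hk
  have hterm : ∀ j ∈ Finset.range (N - d + 1), ∫ x, (kap N d * conj ((PP N d y).coeff j)) *
        (ee (((N - j : ℤ) : ℝ) / T * x) * (h x : ℂ) +
          y * (ee (((N - d - j : ℤ) : ℝ) / T * x) * (h x : ℂ)) -
          ee (((-j : ℤ) : ℝ) / T * x) * (h x : ℂ) -
          y * (ee (((-d - j : ℤ) : ℝ) / T * x) * (h x : ℂ))) =
      (if j = N - d then kap N d * y * M * conj ((PP N d y).coeff j) else 0) -
        (if j = 0 then kap N d * M * conj ((PP N d y).coeff j) else 0) := by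
    intro j hj
    rw [Finset.mem_range] at hj
    rw [integral_const_mul]
    have k1 := hI ((N : ℤ) - (j : ℤ))
    have k2 := (hI ((N : ℤ) - (d : ℤ) - (j : ℤ))).const_mul y
    have k3 := hI (-(j : ℤ))
    have k4 := (hI (-(d : ℤ) - (j : ℤ))).const_mul y
    have s1 : Integrable (fun x => ee (((N - j : ℤ) : ℝ) / T * x) * (h x : ℂ) +
          y * (ee (((N - d - j : ℤ) : ℝ) / T * x) * (h x : ℂ))) := k1.add k2
    have s2 : Integrable (fun x => ee (((N - j : ℤ) : ℝ) / T * x) * (h x : ℂ) +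
          y * (ee (((N - d - j : ℤ) : ℝ) / T * x) * (h x : ℂ)) -
          ee (((-j : ℤ) : ℝ) / T * x) * (h x : ℂ)) := s1.sub k3
    rw [integral_sub s2 k4, integral_sub s1 k3, integral_add k1 k2, integral_const_mul,
      integral_const_mul, hval, hval, hval, hval]
    rw [if_neg (by omega : ¬ ((N : ℤ) - j = 0)), if_neg (by omega : ¬ (-(d : ℤ) - j = 0))]
    have h1 : ((N : ℤ) - d - j = 0) ↔ j = N - d := by omega
    have h2 : (-(j : ℤ) = 0) ↔ j = 0 := by omega
    simp only [h1, h2]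
    split_ifs <;> ring
  rw [Finset.sum_congr rfl hterm, Finset.sum_sub_distrib, Finset.sum_ite_eq',
    Finset.sum_ite_eq', if_pos (Finset.mem_range.mpr (by omega)),
    if_pos (Finset.mem_range.mpr (by omega))]
  rw [PP_coeff_top N d hd h2d, map_one]
  ring

theorem exists_neg (T : ℝ) (N d : ℕ) (hd : 1 ≤ d) (h2d : 2 * d ≤ N) (h : ℝ → ℝ)
    (hhI : Integrable h) (hpos : 0 < ∫ x, h x)
    (horth : ∀ k : ℤ, k ≠ 0 → ∫ x, ee (k / T * x) * (h x : ℂ) = 0) :
    ∃ c : ℕ → ℂ, ∫ x, vv T N d x *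
      ‖∑ j ∈ Finset.range (N - d + 1), c j * ee (j / T * x)‖ ^ 2 * h x < 0 := by
  set Q : ℂ := ∏ k ∈ Finset.Ico (2 * d) N, (-ee ((k : ℕ) / N)) with hQ
  have hQn : ‖Q‖ = 1 := by
    rw [hQ, norm_prod]
    apply Finset.prod_eq_one
    intro k _
    rw [norm_neg, norm_ee]
  obtain ⟨y, hy⟩ := IsAlgClosed.exists_pow_nat_eq (-conj Q) (n := 2) (by norm_num)
  have hyn : ‖y‖ = 1 := by
    have h1 : ‖y‖ ^ 2 = 1 := by
      rw [← norm_pow, hy, norm_neg, RCLike.norm_conj, hQn]
    nlinarith [norm_nonneg y]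
  have hyy : conj y * y = 1 := by
    rw [mul_comm, Complex.mul_conj, Complex.normSq_eq_norm_sq, hyn]
    simp
  set M : ℂ := ((∫ x, h x : ℝ) : ℂ) with hM
  have hM0 : M ≠ 0 := by
    rw [hM]
    exact_mod_cast hpos.ne'
  set A : ℂ → ℝ := fun y => ∫ x, vv T N d x *
    ‖∑ j ∈ Finset.range (N - d + 1), (PP N d y).coeff j * ee (j / T * x)‖ ^ 2 * h x with hA
  have hAy : ∀ u : ℂ, (A u : ℂ) = kap N d * (u - conj (Q * u)) * M := by
    intro u
    rw [hA]
    simp only
    rw [form_eq T N d hd h2d h hhI horth u, PP_coeff_zero N d hd]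
  have hQy : conj (Q * y) = -y := by
    rw [map_mul]
    linear_combination (conj y) * hy - y * hyy
  have h1 : (A y : ℂ) = 2 * kap N d * y * M := by
    rw [hAy, hQy]
    ring
  have h2 : (A (-y) : ℂ) = -(2 * kap N d * y * M) := by
    rw [hAy, mul_neg, map_neg, hQy]
    ring
  have h3 : A (-y) = -A y := by
    have : (A (-y) : ℂ) = ((-A y : ℝ) : ℂ) := by
      rw [h2, ← h1]
      push_cast
      rfl
    exact_mod_cast this
  have hy0 : y ≠ 0 := by
    intro h0
    rw [h0] at hyn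
    simp at hyn
  have h4 : A y ≠ 0 := by
    intro h0
    rw [h0] at h1
    have := mul_ne_zero (mul_ne_zero (mul_ne_zero two_ne_zero (kap_ne N d)) hy0) hM0
    exact this (by rw [← h1]; simp)
  rcases lt_or_gt_of_ne h4 with h5 | h5
  · exact ⟨_, h5⟩
  · refine ⟨fun j => (PP N d (-y)).coeff j, ?_⟩
    change A (-y) < 0
    rw [h3]
    linarith

end Q298.Mim
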