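import Pool.Agent.Q298.Mim.Mom

/-!
The generating function of a point process whose factorial moments are given.
-/

set_option autoImplicit false

namespace Q298.Mim

open Finset MeasureTheory Filter Topology
open scoped ENNReal

instance countable_emb (n : ℕ) : Countable (Fin n ↪ ℕ) :=
  Function.Injective.countable (f := fun g : Fin n ↪ ℕ => (g : Fin n → ℕ)) DFunLike.coe_injective

theorem exp_le_one_sub (s x : ℝ) (hs1 : s < 1) (hx0 : 0 ≤ x) (hx1 : x ≤ 1) :
    Real.exp (-(-Real.log (1 - s)) * x) ≤ 1 - s * x := by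
  have h1 := convexOn_exp.2 (Set.mem_univ (Real.log (1 - s))) (Set.mem_univ (0 : ℝ)) hx0
    (sub_nonneg.mpr hx1) (by ring)
  simp only [smul_eq_mul, mul_zero, add_zero, Real.exp_zero, mul_one] at h1
  rw [Real.exp_log (by linarith)] at h1
  have h2 : -(-Real.log (1 - s)) * x = x * Real.log (1 - s) := by ring
  rw [h2]
  linarith

theorem generating {Ω : Type*} [MeasurableSpace Ω] (P : Measure Ω) [IsProbabilityMeasure P]
    (W : ℕ → Ω → ℝ) (hWm : ∀ j, Measurable (W j)) (hW0 : ∀ j ω, 0 ≤ W j ω)
    (hW1 : ∀ᵐ ω ∂P, ∀ j, W j ω ≤ 1)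
    (hmom : ∀ n : ℕ, 1 ≤ n → ∫⁻ ω, (∑' j, ENNReal.ofReal (W j ω)) ^ n ∂P ≠ ∞)
    (F : ℕ → ℝ) (hF : ∀ n, 1 ≤ n → ∫ ω, ∑' f : Fin n ↪ ℕ, ∏ i, W (f i) ω ∂P = F n)
    (hF0 : F 0 = 1) (A : ℝ) (hA : ∀ n, F n ≤ A ^ n) (s0 : ℝ) (hs0 : 0 ≤ s0) (hs1 : s0 < 1) :
    ∃ δ > 0, ∀ s, 0 ≤ s → s ≤ s0 → δ ≤ ∑' n : ℕ, (-s) ^ n / n.factorial * F n := by
  classical
  -- products
  have ham : ∀ (n : ℕ) (f : Fin n → ℕ), Measurable fun ω => ∏ i, W (f i) ω := by
    intro n f
    exact Finset.measurable_fun_prod _ fun i _ => hWm _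
  have hlint : ∀ n : ℕ, 1 ≤ n →
      ∑' f : Fin n ↪ ℕ, ∫⁻ ω, ENNReal.ofReal (∏ i, W (f i) ω) ∂P ≠ ∞ := by
    intro n hn
    rw [← lintegral_tsum (fun f : Fin n ↪ ℕ => (ham n f).ennreal_ofReal.aemeasurable)]
    refine ne_top_of_le_ne_top (hmom n hn) ?_
    apply lintegral_mono
    intro ω
    have h1 : ∀ f : Fin n ↪ ℕ, ENNReal.ofReal (∏ i, W (f i) ω) =
        ∏ i, ENNReal.ofReal (W (f i) ω) := by
      intro f
      rw [ENNReal.ofReal_prod_of_nonneg]
      intro i _
      exact hW0 _ _
    simp_rw [h1]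
    exact tsum_emb_le n (fun j => ENNReal.ofReal (W j ω))
  have hinte : ∀ (n : ℕ), 1 ≤ n → ∀ (f : Fin n ↪ ℕ), Integrable (fun ω => ∏ i, W (f i) ω) P := by
    intro n hn f
    refine ⟨(ham n f).aestronglyMeasurable, ?_⟩
    rw [hasFiniteIntegral_iff_ofReal (ae_of_all _ fun ω => prod_nonneg fun i _ => hW0 _ _)]
    exact lt_top_iff_ne_top.mpr (ENNReal.ne_top_of_tsum_ne_top (hlint n hn) f)
  set E : (n : ℕ) → (Fin n ↪ ℕ) → ℝ := fun n f => ∫ ω, ∏ i, W (f i) ω ∂P with hE
  have hE0 : ∀ n f, 0 ≤ E n f := fun n f => integral_nonneg fun ω => prod_nonneg fun i _ => hW0 _ _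
  have hEsum : ∀ n, 1 ≤ n → HasSum (E n) (F n) := by
    intro n hn
    have h1 : ∀ f : Fin n ↪ ℕ, ∫⁻ ω, ‖∏ i, W (f i) ω‖ₑ ∂P =
        ∫⁻ ω, ENNReal.ofReal (∏ i, W (f i) ω) ∂P := by
      intro f
      apply lintegral_congr
      intro ω
      rw [Real.enorm_of_nonneg (prod_nonneg fun i _ => hW0 _ _)]
    have h2 : ∑' f : Fin n ↪ ℕ, ∫⁻ ω, ‖∏ i, W (f i) ω‖ₑ ∂P ≠ ∞ := by
      simp_rw [h1]
      exact hlint n hn
    have h3 := integral_tsum (μ := P) (f := fun (f : Fin n ↪ ℕ) ω => ∏ i, W (f i) ω)
      (fun f => (ham n f).aestronglyMeasurable) h2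
    rw [hF n hn] at h3
    rw [h3]
    apply Summable.hasSum
    have h4 : ∀ f, E n f = (∫⁻ ω, ENNReal.ofReal (∏ i, W (f i) ω) ∂P).toReal := by
      intro f
      rw [hE]
      simp only
      rw [integral_eq_lintegral_of_nonneg_ae
        (ae_of_all _ fun ω => prod_nonneg fun i _ => hW0 _ _) (ham n f).aestronglyMeasurable]
    change Summable fun f => E n f
    simp_rw [h4]
    exact ENNReal.summable_toReal (hlint n hn)
  -- truncated factorial moments
  set T : ℕ → ℕ → ℝ := fun M n => ∑ f : Fin n ↪ Fin M, E n (f.trans Fin.valEmbedding) with hT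
  have hTimg : ∀ M n, T M n = ∑ g ∈ (univ : Finset (Fin n ↪ Fin M)).map
      ⟨fun f => f.trans Fin.valEmbedding, fun f g h => by
        ext i
        exact congrArg (fun e : Fin n ↪ ℕ => e i) h⟩, E n g := by
    intro M n
    rw [sum_map]
    rfl
  have hF0' : ∀ M, T M 0 = 1 := by
    intro M
    rw [hT, hE]
    simp
  have hTle : ∀ M n, T M n ≤ F n := by
    intro M n
    rcases Nat.eq_zero_or_pos n with hn | hn
    · subst hn
      rw [hF0', hF0]
    · rw [hTimg]
      exact sum_le_hasSum _ (fun g _ => hE0 _ _) (hEsum n hn)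
  have hT0 : ∀ M n, 0 ≤ T M n := fun M n => sum_nonneg fun _ _ => hE0 _ _
  have hTlim : ∀ n, Tendsto (fun M => T M n) atTop (𝓝 (F n)) := by
    intro n
    rcases Nat.eq_zero_or_pos n with hn | hn
    · subst hn
      simp_rw [hF0', hF0]
      exact tendsto_const_nhds
    · simp_rw [hTimg]
      have h1 : Tendsto (fun M => (univ : Finset (Fin n ↪ Fin M)).map
          (⟨fun f => f.trans Fin.valEmbedding, fun f g h => by
            ext i
            exact congrArg (fun e : Fin n ↪ ℕ => e i) h⟩ : (Fin n ↪ Fin M) ↪ (Fin n ↪ ℕ)))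
          atTop atTop := by
        apply tendsto_atTop_finset_of_monotone
        · intro M M' hMM g hg
          rw [Finset.mem_map] at hg ⊢
          obtain ⟨f, _, rfl⟩ := hg
          refine ⟨f.trans (Fin.castLEEmb hMM), mem_univ _, ?_⟩
          ext i
          rfl
        · intro g
          refine ⟨(univ.sup fun i => g i) + 1, ?_⟩
          rw [Finset.mem_map]
          have hlt : ∀ i, g i < (univ.sup fun i => g i) + 1 := fun i =>
            Nat.lt_succ_of_le (le_sup (f := fun i => g i) (mem_univ i))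
          refine ⟨⟨fun i => ⟨g i, hlt i⟩, fun a b hab => g.injective (by
            simpa using congrArg Fin.val hab)⟩, mem_univ _, ?_⟩
          ext i
          rfl
      exact (hEsum n hn).comp h1
  -- expectation of the elementary symmetric functions
  have hes : ∀ M n, Integrable (fun ω => es n (fun j : Fin M => W j ω)) P ∧
      ∫ ω, es n (fun j : Fin M => W j ω) ∂P = T M n := by
    intro M n
    have hI : ∀ f : Fin n ↪ Fin M, Integrable (fun ω => ∏ k, W (f k : Fin M) ω) P := by
      intro f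
      rcases Nat.eq_zero_or_pos n with hn | hn
      · subst hn
        simp
      · exact hinte n hn (f.trans Fin.valEmbedding)
    constructor
    · unfold es
      exact integrable_finsetSum _ fun f _ => hI f
    · unfold es
      rw [integral_finsetSum _ fun f _ => hI f]
      rfl
  have hFn0 : ∀ n, 0 ≤ F n := fun n => (hT0 0 n).trans (hTle 0 n)
  have hA0 : 0 ≤ A := by
    have := (hFn0 1).trans (hA 1)
    simpa using this
  -- the generating function of the first `M` points
  have hgen : ∀ M (s : ℝ), ∫ ω, ∏ j : Fin M, (1 + -s * W j ω) ∂P =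
      ∑' n : ℕ, (-s) ^ n / n.factorial * T M n := by
    intro M s
    have h1 : ∀ ω, ∏ j : Fin M, (1 + -s * W j ω) =
        ∑ n ∈ range (M + 1), (-s) ^ n / n.factorial * es n (fun j : Fin M => W j ω) := by
      intro ω
      exact prod_one_add_eq (-s) (fun j : Fin M => W j ω) (M + 1) (by simp)
    simp_rw [h1]
    rw [integral_finsetSum _ fun n _ => (hes M n).1.const_mul _]
    rw [tsum_eq_sum (s := range (M + 1))]
    · apply sum_congr rfl
      intro n _
      rw [integral_const_mul, (hes M n).2]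
    · intro n hn
      rw [mem_range, not_lt] at hn
      have h2 : T M n = 0 := by
        rw [← (hes M n).2]
        have h3 : ∀ ω, es n (fun j : Fin M => W j ω) = 0 := by
          intro ω
          apply es_zero_of_lt
          rw [Fintype.card_fin]
          omega
        simp_rw [h3]
        simp
      rw [h2, mul_zero]
  have hlim : ∀ s : ℝ, 0 ≤ s → s ≤ 1 → Tendsto (fun M => ∑' n : ℕ, (-s) ^ n / n.factorial * T M n)
      atTop (𝓝 (∑' n : ℕ, (-s) ^ n / n.factorial * F n)) := by
    intro s hs hs1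
    apply tendsto_tsum_of_dominated_convergence (bound := fun n : ℕ => A ^ n / n.factorial)
      (Real.summable_pow_div_factorial A)
    · intro n
      exact (hTlim n).const_mul _
    · apply Eventually.of_forall
      intro M n
      rw [norm_mul, norm_div, norm_pow, norm_neg, Real.norm_of_nonneg hs,
        Real.norm_of_nonneg (hT0 M n), RCLike.norm_natCast]
      have h1 : s ^ n ≤ 1 := pow_le_one₀ hs hs1
      have h2 : T M n ≤ A ^ n := (hTle M n).trans (hA n)
      have h3 : (0 : ℝ) < n.factorial := by positivity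
      rw [div_mul_eq_mul_div, div_le_div_iff_of_pos_right h3]
      calc s ^ n * T M n ≤ 1 * A ^ n := by
            apply mul_le_mul h1 h2 (hT0 M n) (by norm_num)
        _ = A ^ n := one_mul _
  -- the lower bound
  set c : ℝ := -Real.log (1 - s0) with hc
  have hc0 : 0 ≤ c := by
    rw [hc, neg_nonneg]
    exact Real.log_nonpos (by linarith) (by linarith)
  set Y : Ω → ℝ := fun ω => (∑' j, ENNReal.ofReal (W j ω)).toReal with hY
  have hYm : Measurable Y :=
    (Measurable.tsum fun j => (hWm j).ennreal_ofReal).ennreal_toReal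
  have hY0 : ∀ ω, 0 ≤ Y ω := fun ω => ENNReal.toReal_nonneg
  have hYfin : ∀ᵐ ω ∂P, ∑' j, ENNReal.ofReal (W j ω) ≠ ∞ := by
    have h1 := hmom 1 le_rfl
    simp_rw [pow_one] at h1
    have h2 := ae_lt_top (Measurable.tsum fun j => (hWm j).ennreal_ofReal) h1
    filter_upwards [h2] with ω hω using hω.ne
  have hexpI : Integrable (fun ω => Real.exp (-c * Y ω)) P := by
    refine Integrable.mono' (integrable_const (1 : ℝ))
      (by fun_prop) ?_
    apply ae_of_all
    intro ω
    rw [Real.norm_of_nonneg (Real.exp_pos _).le, Real.exp_le_one_iff]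
    have := mul_nonneg hc0 (hY0 ω)
    linarith
  refine ⟨∫ ω, Real.exp (-c * Y ω) ∂P, ?_, ?_⟩
  · exact integral_exp_pos hexpI
  · intro s hs hss
    apply ge_of_tendsto (hlim s hs (by linarith))
    apply Eventually.of_forall
    intro M
    rw [← hgen M s]
    apply integral_mono_ae hexpI
    · have h1 : ∀ ω, ∏ j : Fin M, (1 + -s * W j ω) =
          ∑ n ∈ range (M + 1), (-s) ^ n / n.factorial * es n (fun j : Fin M => W j ω) := by
        intro ω
        exact prod_one_add_eq (-s) (fun j : Fin M => W j ω) (M + 1) (by simp)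
      simp_rw [h1]
      exact integrable_finsetSum _ fun n _ => (hes M n).1.const_mul _
    · filter_upwards [hW1, hYfin] with ω h1 h2
      have h3 : ∑ j : Fin M, W j ω ≤ Y ω := by
        rw [hY]
        simp only
        have h4 : ENNReal.ofReal (∑ j : Fin M, W j ω) ≤ ∑' j, ENNReal.ofReal (W j ω) := by
          rw [ENNReal.ofReal_sum_of_nonneg fun i _ => hW0 _ _]
          rw [Fin.sum_univ_eq_sum_range (fun j => ENNReal.ofReal (W j ω)) M]
          exact ENNReal.sum_le_tsum _
        rw [← ENNReal.ofReal_le_iff_le_toReal h2]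
        exact h4
      calc Real.exp (-c * Y ω) ≤ Real.exp (-c * ∑ j : Fin M, W j ω) := by
            apply Real.exp_le_exp.mpr
            nlinarith
        _ = ∏ j : Fin M, Real.exp (-c * W j ω) := by
            rw [mul_sum, Real.exp_sum]
        _ ≤ ∏ j : Fin M, (1 + -s * W j ω) := by
            apply Finset.prod_le_prod
            · intro j _
              exact (Real.exp_pos _).le
            · intro j _
              have h5 := exp_le_one_sub s0 (W j ω) hs1 (hW0 _ _) (h1 _)
              have h6 := mul_le_mul_of_nonneg_right hss (hW0 j ω)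
              have h7 : -c * W j ω = -(-Real.log (1 - s0)) * W j ω := by rw [hc]
              rw [h7]
              linarith

end Q298.Mim
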