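import Pool.Agent.Q298.Mim.Band

/-!
The trigonometric polynomials: `v` is nonnegative on the lattice, but its mean against a squared
trigonometric polynomial of degree `N - d` is negative.
-/

set_option autoImplicit false

namespace Q298.Mim

open MeasureTheory Filter Topology ComplexConjugate

theorem cos_odd_le (N : ℕ) (hN : 1 ≤ N) (r : ℤ) :
    Real.cos (Real.pi * (2 * r + 1) / N) ≤ Real.cos (Real.pi / N) := by
  have hN0 : (0 : ℝ) < N := by exact_mod_cast hN
  have h1 : Real.cos (Real.pi / N) - Real.cos (Real.pi * (2 * r + 1) / N) =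
      2 * (Real.sin (Real.pi * (r + 1) / N) * Real.sin (Real.pi * r / N)) := by
    rw [Real.cos_sub_cos]
    have e1 : (Real.pi / N + Real.pi * (2 * r + 1) / N) / 2 = Real.pi * (r + 1) / N := by
      field_simp
      ring
    have e2 : (Real.pi / N - Real.pi * (2 * r + 1) / N) / 2 = -(Real.pi * r / N) := by
      field_simp
      ring
    rw [e1, e2, Real.sin_neg]
    ring
  set q : ℤ := r / (N : ℤ) with hq
  set ρ : ℤ := r % (N : ℤ) with hρ
  have hNz : (0 : ℤ) < (N : ℤ) := by exact_mod_cast hN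
  have hr : r = ρ + q * N := by
    rw [hq, hρ]
    have := Int.emod_add_mul_ediv r N
    linarith [mul_comm (N : ℤ) (r / N)]
  have hρ0 : 0 ≤ ρ := Int.emod_nonneg _ hNz.ne'
  have hρ1 : ρ + 1 ≤ N := Int.emod_lt_of_pos _ hNz
  have hρ0' : (0 : ℝ) ≤ ρ := by exact_mod_cast hρ0
  have hρ1' : (ρ : ℝ) + 1 ≤ N := by exact_mod_cast hρ1
  have e3 : Real.pi * r / N = Real.pi * ρ / N + q * Real.pi := by
    rw [hr]
    push_cast
    field_simp
  have e4 : Real.pi * (r + 1) / N = Real.pi * (ρ + 1) / N + q * Real.pi := by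
    rw [hr]
    push_cast
    field_simp
    ring
  rw [e3, e4, Real.sin_add_int_mul_pi, Real.sin_add_int_mul_pi] at h1
  have h2 : 0 ≤ Real.sin (Real.pi * ρ / N) := by
    apply Real.sin_nonneg_of_nonneg_of_le_pi
    · have := Real.pi_pos
      positivity
    · rw [div_le_iff₀ hN0]
      have := Real.pi_pos
      nlinarith
  have h3 : 0 ≤ Real.sin (Real.pi * (ρ + 1) / N) := by
    apply Real.sin_nonneg_of_nonneg_of_le_pi
    · have := Real.pi_pos
      positivity
    · rw [div_le_iff₀ hN0]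
      have := Real.pi_pos
      nlinarith
  have h4 : ((-1 : ℝ) ^ q) * ((-1 : ℝ) ^ q) = 1 := by
    rw [← mul_zpow]
    simp
  have h5 : 0 ≤ Real.cos (Real.pi / N) - Real.cos (Real.pi * (2 * r + 1) / N) := by
    rw [h1]
    have h6 : 2 * ((-1 : ℝ) ^ q * Real.sin (Real.pi * (ρ + 1) / N) *
        ((-1 : ℝ) ^ q * Real.sin (Real.pi * ρ / N))) =
        2 * (((-1 : ℝ) ^ q * (-1 : ℝ) ^ q) * (Real.sin (Real.pi * (ρ + 1) / N) *
          Real.sin (Real.pi * ρ / N))) := by ring
    rw [h6, h4]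
    positivity
  linarith

/-- One factor. -/
noncomputable def vf (T : ℝ) (N i : ℕ) (x : ℝ) : ℝ :=
  (Real.cos (Real.pi / N) - Real.cos (2 * Real.pi * (x / T) - Real.pi * (4 * i + 1) / N)) / 2

/-- The trigonometric polynomial `v`. -/
noncomputable def vv (T : ℝ) (N d : ℕ) (x : ℝ) : ℝ := ∏ i ∈ Finset.range d, vf T N i x

theorem abs_vf_le (T : ℝ) (N i : ℕ) (x : ℝ) : |vf T N i x| ≤ 1 := by
  unfold vf
  rw [abs_le]
  have h1 := Real.neg_one_le_cos (Real.pi / N)
  have h2 := Real.cos_le_one (Real.pi / N)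
  have h3 := Real.neg_one_le_cos (2 * Real.pi * (x / T) - Real.pi * (4 * i + 1) / N)
  have h4 := Real.cos_le_one (2 * Real.pi * (x / T) - Real.pi * (4 * i + 1) / N)
  constructor <;> linarith

theorem abs_vv_le (T : ℝ) (N d : ℕ) (x : ℝ) : |vv T N d x| ≤ 1 := by
  unfold vv
  rw [Finset.abs_prod]
  exact Finset.prod_le_one (fun _ _ => abs_nonneg _) fun i _ => abs_vf_le T N i x

theorem vv_nonneg (a : ℝ) (ha : 0 < a) (N d : ℕ) (hN : 1 ≤ N) (k : ℤ) :
    0 ≤ vv (N * a) N d (a * k) := by
  apply Finset.prod_nonneg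
  intro i _
  unfold vf
  have hN0 : (0 : ℝ) < N := by exact_mod_cast hN
  have h1 : 2 * Real.pi * (a * k / (N * a)) - Real.pi * (4 * i + 1) / N =
      Real.pi * (2 * ((k - 2 * i - 1 : ℤ) : ℝ) + 1) / N := by
    push_cast
    field_simp
    ring
  rw [h1]
  have := cos_odd_le N hN (k - 2 * i - 1)
  linarith

theorem continuous_vv (T : ℝ) (N d : ℕ) : Continuous (vv T N d) := by
  unfold vv vf
  fun_prop

theorem vf_complex (T : ℝ) (N i : ℕ) (x : ℝ) : ((vf T N i x : ℝ) : ℂ) =
    (Real.cos (Real.pi / N) : ℂ) / 2 - ee (x / T) * ee (-((4 * i + 1) / (2 * N))) / 4 -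
      ee (-(x / T)) * ee ((4 * i + 1) / (2 * N)) / 4 := by
  unfold vf
  rw [← ee_add, ← ee_add]
  push_cast
  have h1 : Complex.cos (2 * Real.pi * (x / T) - Real.pi * (4 * i + 1) / N) =
      (ee (x / T + -((4 * i + 1) / (2 * N))) + ee (-(x / T) + (4 * i + 1) / (2 * N))) / 2 := by
    unfold Complex.cos
    congr 2
    · rw [ee_eq]
      congr 1
      push_cast
      by_cases hN : (N : ℂ) = 0
      · rw [hN]
        simp
      · field_simp
        ring
    · rw [ee_eq]
      congr 1
      push_cast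
      by_cases hN : (N : ℂ) = 0
      · rw [hN]
        simp
      · field_simp
        ring
  rw [h1]
  ring

theorem TP_vv (T : ℝ) (hT : 0 < T) (N d : ℕ) : TP (d * (1 / T)) (fun x => (vv T N d x : ℂ)) := by
  have h1 : ∀ i ∈ Finset.range d, TP (1 / T) (fun x => (vf T N i x : ℂ)) := by
    intro i _
    refine ⟨Fin 3, inferInstance, ![(Real.cos (Real.pi / N) : ℂ) / 2,
      -(ee (-((4 * i + 1) / (2 * N))) / 4), -(ee ((4 * i + 1) / (2 * N)) / 4)],
      ![0, 1 / T, -(1 / T)], ?_, ?_⟩
    · intro j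
      have hT' : 0 ≤ 1 / T := by positivity
      fin_cases j
      · simpa using hT'
      · simp only [Fin.mk_one, Matrix.cons_val_one, Matrix.cons_val_zero]
        rw [abs_of_nonneg hT']
      · simp only [Fin.reduceFinMk, Matrix.cons_val]
        rw [abs_neg, abs_of_nonneg hT']
    · intro x
      simp only [Fin.sum_univ_three, Matrix.cons_val_zero, Matrix.cons_val_one, Matrix.cons_val]
      rw [vf_complex, zero_mul, ee_zero]
      have e1 : 1 / T * x = x / T := by ring
      have e2 : -(1 / T) * x = -(x / T) := by ring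
      rw [e1, e2]
      ring
  have h2 := TP_prod (Finset.range d) (1 / T) (fun i x => (vf T N i x : ℂ)) h1
  rw [Finset.card_range] at h2
  have h3 : (fun x => (vv T N d x : ℂ)) = fun x => ∏ i ∈ Finset.range d, (vf T N i x : ℂ) := by
    ext x
    unfold vv
    push_cast
    rfl
  rw [h3]
  exact h2

end Q298.Mim
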